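import Pool.Agent.GRM.Explicit

/-! # MP_11cd4d: the bound of UniformDeficiency follows from `explicit` with `g = 1` -/

set_option autoImplicit false

open scoped BigOperators

namespace RMG

/-- The statement of the earlier hand-in UniformDeficiency (with `t = r - 2`). -/
theorem uniform_of_explicit (t : ℕ) (ht : 1 ≤ t) (m : ℕ) (hm : 2 ^ 18 ≤ m)
    (hmt : 6000 * (t : ℝ) ^ 2 * Real.log m ^ 2 ≤ m) :
    (RMC71.covRadius (t + 2) m : ℝ)
      ≤ 2 ^ m / 2 - 1 / 7 * ((m : ℝ) / (800 * t ^ 2 * Real.log m)) ^ ((t : ℝ) / 2)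
        * Real.sqrt (2 ^ m) := by
  have hl2 := Real.log_two_gt_d9
  have hT1 : (1 : ℝ) ≤ t := by exact_mod_cast ht
  have hT0 : (0 : ℝ) < t := by linarith
  have hmR : (2 : ℝ) ^ 18 ≤ m := by exact_mod_cast hm
  have hmpos : (0 : ℝ) < m := lt_of_lt_of_le (by norm_num) hmR
  have hx18 : 18 * Real.log 2 ≤ Real.log m := by
    have h1 := Real.log_le_log (by norm_num) hmR
    rw [Real.log_pow] at h1
    exact_mod_cast h1
  set x : ℝ := Real.log m with hx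
  have hx12 : (12 : ℝ) ≤ x := by linarith
  have hTT : (t : ℝ) ≤ (t : ℝ) ^ 2 := by
    rw [pow_two]; exact le_mul_of_one_le_left hT0.le hT1
  have hTx : (t : ℝ) ^ 2 * 1 ≤ (t : ℝ) ^ 2 * x ^ 2 :=
    mul_le_mul_of_nonneg_left (by nlinarith) (by positivity)
  have h2t : 2 * (t : ℝ) ≤ m := by nlinarith
  have h2tN : 2 * t ≤ m := by exact_mod_cast h2t
  -- `Λ ≤ 1.4427 x`
  have hΛ : Real.logb 2 ((m : ℝ) / t) ≤ 1.4428 * x := by
    have h1 : Real.logb 2 ((m : ℝ) / t) ≤ Real.logb 2 (m : ℝ) := by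
      refine Real.logb_le_logb_of_le (by norm_num) (by positivity) ?_
      exact div_le_self hmpos.le hT1
    refine h1.trans ?_
    rw [Real.logb, div_le_iff₀ (by linarith)]
    nlinarith
  have hΛ1 : 1 ≤ Real.logb 2 ((m : ℝ) / t) := by
    have h1 : (2 : ℝ) ≤ (m : ℝ) / t := by rw [le_div_iff₀ hT0]; exact h2t
    have h2 := Real.logb_le_logb_of_le (by norm_num : (1 : ℝ) < 2) (by norm_num) h1
    rwa [Real.logb_self_eq_one (by norm_num)] at h2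
  have hT2 : (0 : ℝ) < (t : ℝ) ^ 2 := by positivity
  have hxx : 12 * x ≤ x ^ 2 := by nlinarith
  have hY : 36 * (64 * (t : ℝ) ^ 2 * Real.logb 2 (m / t)) ≤ (1 : ℕ) * m := by
    have h1 : (t : ℝ) ^ 2 * Real.logb 2 ((m : ℝ) / t) ≤ (t : ℝ) ^ 2 * (1.4428 * x) :=
      mul_le_mul_of_nonneg_left hΛ hT2.le
    have h2 : (t : ℝ) ^ 2 * (12 * x) ≤ (t : ℝ) ^ 2 * x ^ 2 :=
      mul_le_mul_of_nonneg_left hxx hT2.le
    have h3 : 0 ≤ (t : ℝ) ^ 2 * x := by positivity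
    push_cast
    nlinarith
  have hfin := explicit t 1 m ht le_rfl ht h2tN hY
  have hmono : ((m : ℝ) / (800 * t ^ 2 * x)) ^ ((t : ℝ) / 2)
      ≤ (((1 : ℕ) : ℝ) * m / (64 * t ^ 2 * Real.logb 2 (m / t))) ^ ((t : ℝ) / 2) := by
    refine Real.rpow_le_rpow (by positivity) ?_ (by positivity)
    rw [Nat.cast_one, one_mul]
    refine div_le_div_of_nonneg_left hmpos.le (by positivity) ?_
    have h1 : (t : ℝ) ^ 2 * Real.logb 2 ((m : ℝ) / t) ≤ (t : ℝ) ^ 2 * (1.4428 * x) :=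
      mul_le_mul_of_nonneg_left hΛ hT2.le
    have h3 : 0 ≤ (t : ℝ) ^ 2 * x := by positivity
    nlinarith
  have hs := Real.sqrt_nonneg ((2 : ℝ) ^ m)
  have h10 : 1 / 7 * ((m : ℝ) / (800 * t ^ 2 * x)) ^ ((t : ℝ) / 2) * Real.sqrt (2 ^ m)
      ≤ 1 / 7 * (((1 : ℕ) : ℝ) * m / (64 * t ^ 2 * Real.logb 2 (m / t))) ^ ((t : ℝ) / 2)
        * Real.sqrt (2 ^ m) := by
    gcongr
  exact hfin.trans (by linarith)

end RMG
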