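import Pool.Agent.Helper44.HO.Dich

/-! # The dichotomy over several degree steps (row R1, `MP_11cd4d_lc`)

A submodular form of the lemma of Petridis: the minimiser of `dim (S L) - K dim S` has small products
by all powers of `L`, and its dimension is automatically a positive proportion. -/

set_option autoImplicit false
set_option linter.unusedSectionVars false

open scoped BigOperators
open Classical Module

namespace RMG
open RMH

section Pet

variable {K A : Type} [Field K] [CommRing A] [Algebra K A] [FiniteDimensional K A]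

/-- the submodular form of the lemma of Petridis -/
lemma sub_petridis_aux (L S : Submodule K A) (κ : ℝ)
    (hT : ∀ T : Submodule K A, T ≤ S → (finrank K ↥(S * L) : ℝ) - κ * finrank K S
      ≤ finrank K ↥(T * L) - κ * finrank K T) (s : Finset A) :
    (finrank K ↥(S * L * Submodule.span K (s : Set A)) : ℝ)
      ≤ κ * finrank K ↥(S * Submodule.span K (s : Set A)) := by
  classical
  induction s using Finset.induction_on with
  | empty =>
    rw [Finset.coe_empty, Submodule.span_empty, Submodule.mul_bot, Submodule.mul_bot]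
    simp
  | insert c s hc ih =>
    have hspan : Submodule.span K ((insert c s : Finset A) : Set A)
        = Submodule.span K (s : Set A) ⊔ Submodule.span K {c} := by
      rw [Finset.coe_insert, Submodule.span_insert, sup_comm]
    rw [hspan, Submodule.mul_sup, Submodule.mul_sup, mul_span_singleton, mul_span_singleton]
    set C := Submodule.span K (s : Set A)
    set f := LinearMap.mulLeft K c
    have h1 := finrank_sup_map f (S * L * C) (S * L)
    have h2 := finrank_sup_map f (S * C) S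
    have h3 := hT (S ⊓ (S * C).comap f) inf_le_left
    have h4 : (S ⊓ (S * C).comap f) * L ≤ S * L ⊓ (S * L * C).comap f := by
      rw [Submodule.mul_le]
      intro x hx l hl
      refine ⟨Submodule.mul_mem_mul hx.1 hl, ?_⟩
      have hx2 : c * x ∈ S * C := hx.2
      show c * (x * l) ∈ S * L * C
      rw [← mul_assoc, mul_right_comm]
      exact Submodule.mul_mem_mul hx2 hl
    have h5 := Submodule.finrank_mono h4
    have h1' : (finrank K ↥(S * L * C ⊔ (S * L).map f) : ℝ)
        + finrank K ↥(S * L ⊓ (S * L * C).comap f) = finrank K ↥(S * L * C)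
          + finrank K ↥(S * L) := by exact_mod_cast h1
    have h2' : (finrank K ↥(S * C ⊔ S.map f) : ℝ)
        + finrank K ↥(S ⊓ (S * C).comap f) = finrank K ↥(S * C) + finrank K S := by
      exact_mod_cast h2
    have h5' : (finrank K ↥((S ⊓ (S * C).comap f) * L) : ℝ)
        ≤ finrank K ↥(S * L ⊓ (S * L * C).comap f) := by exact_mod_cast h5
    have h6 : κ * (finrank K ↥(S * C ⊔ S.map f) : ℝ) = κ * finrank K ↥(S * C)
        + κ * finrank K S - κ * finrank K ↥(S ⊓ (S * C).comap f) := by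
      rw [← mul_add, ← mul_sub]
      congr 1
      linarith
    rw [h6]
    linarith

lemma sub_petridis_pow (L S : Submodule K A) (κ : ℝ) (hκ : 0 ≤ κ)
    (hT : ∀ T : Submodule K A, T ≤ S → (finrank K ↥(S * L) : ℝ) - κ * finrank K S
      ≤ finrank K ↥(T * L) - κ * finrank K T) (j : ℕ) :
    (finrank K ↥(S * L ^ j) : ℝ) ≤ κ ^ j * finrank K S := by
  induction j with
  | zero => rw [pow_zero, pow_zero, one_mul, mul_one]
  | succ j ih =>
    have h : (finrank K ↥(S * L * L ^ j) : ℝ) ≤ κ * finrank K ↥(S * L ^ j) := by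
      obtain ⟨s, hs⟩ : (L ^ j).FG := Module.Finite.iff_fg.1 inferInstance
      rw [← hs]
      exact sub_petridis_aux L S κ hT s
    have h2 : S * L ^ (j + 1) = S * L * L ^ j := by rw [pow_succ', mul_assoc]
    rw [h2]
    calc (finrank K ↥(S * L * L ^ j) : ℝ) ≤ κ * finrank K ↥(S * L ^ j) := h
      _ ≤ κ * (κ ^ j * finrank K S) := mul_le_mul_of_nonneg_left ih hκ
      _ = κ ^ (j + 1) * finrank K S := by ring

/-- a large subspace with small products by all powers: if `dim (D L) ≤ (1 + 2 x / 3) dim D`, then some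
`S ≤ D` with `dim D ≤ 3 dim S` has `dim (S L^j) ≤ (1 + x)^j dim S` for all `j` -/
theorem exists_large [Finite A] (L D : Submodule K A) (h1 : (1 : A) ∈ L) (x : ℝ) (hx : 0 < x)
    (h0 : (finrank K ↥(D * L) : ℝ) ≤ (1 + 2 * x / 3) * finrank K D) :
    ∃ S : Submodule K A, S ≤ D ∧ (finrank K D : ℝ) ≤ 3 * finrank K S ∧
      ∀ j : ℕ, (finrank K ↥(S * L ^ j) : ℝ) ≤ (1 + x) ^ j * finrank K S := by
  have hfin : (Set.univ : Set (Submodule K A)).Finite := by
    have : Finite (Submodule K A) := Finite.of_injective (fun S => (S : Set A)) SetLike.coe_injective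
    exact Set.toFinite _
  obtain ⟨S, hSD, hmin⟩ := Set.exists_min_image {S : Submodule K A | S ≤ D}
    (fun S => (finrank K ↥(S * L) : ℝ) - (1 + x) * finrank K S) (hfin.subset (Set.subset_univ _))
    ⟨D, (le_refl D : D ≤ D)⟩
  refine ⟨S, hSD, ?_, sub_petridis_pow L S (1 + x) (by linarith)
    (fun T hT => hmin T (hT.trans hSD))⟩
  have h2 := hmin D (le_refl D)
  have h3 : (finrank K S : ℝ) ≤ finrank K ↥(S * L) := by
    have : S ≤ S * L := by
      intro d hd
      have := Submodule.mul_mem_mul hd h1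
      rwa [mul_one] at this
    exact_mod_cast Submodule.finrank_mono this
  have h4 : x * (finrank K D : ℝ) ≤ x * (3 * finrank K S) := by nlinarith
  exact le_of_mul_le_mul_left h4 hx

end Pet

section Sep

variable {ι : Type} [Fintype ι]

lemma exp_bound' (κ : ℕ) (hκ : 1 ≤ κ) : (1 + 2 / (5 * (κ : ℝ))) ^ κ ≤ 3 / 2 := by
  have hκ0 : (0 : ℝ) < κ := by exact_mod_cast hκ
  have h2 : 1 + 2 / (5 * (κ : ℝ)) ≤ Real.exp (2 / (5 * κ)) := by
    have := Real.add_one_le_exp (2 / (5 * (κ : ℝ)))
    linarith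
  calc (1 + 2 / (5 * (κ : ℝ))) ^ κ ≤ Real.exp (2 / (5 * κ)) ^ κ := by
        gcongr
    _ = Real.exp (2 / 5) := by
        rw [← Real.exp_nat_mul]
        congr 1
        field_simp
    _ ≤ 3 / 2 := by
        have h3 : Real.exp (2 / 5) ^ 5 = Real.exp 1 ^ 2 := by
          rw [← Real.exp_nat_mul, ← Real.exp_nat_mul]
          norm_num
        have h4 : Real.exp 1 ^ 2 ≤ (3 / 2 : ℝ) ^ 5 := by
          have h5 := Real.exp_one_lt_d9
          have h6 := Real.exp_pos 1
          nlinarith
        by_contra hcon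
        push Not at hcon
        have h7 : (3 / 2 : ℝ) ^ 5 < Real.exp (2 / 5) ^ 5 :=
          pow_lt_pow_left₀ hcon (by norm_num) (by norm_num)
        linarith

/-- some step of a slowly growing chain is small -/
lemma exists_step (f : ℕ → ℝ) (g : ℕ) (c : ℝ) (h : f g - f 0 < g * c) :
    ∃ k < g, f (k + 1) - f k < c := by
  by_contra hcon
  push Not at hcon
  have h1 : ∑ _k ∈ Finset.range g, c ≤ ∑ k ∈ Finset.range g, (f (k + 1) - f k) :=
    Finset.sum_le_sum (fun k hk => hcon k (Finset.mem_range.1 hk))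
  rw [Finset.sum_range_sub, Finset.sum_const, Finset.card_range, nsmul_eq_mul] at h1
  linarith

/-- a chain `D L^k`, `k ≤ g`, which ends at dimension about half the number of points forces a
deficient restriction of `D` -/
theorem dichotomy' (L D : Submodule (ZMod 2) (ι → ZMod 2))
    (h1 : (1 : ι → ZMod 2) ∈ L) (hsep : ∀ i j, i ≠ j → ∃ l ∈ L, l i ≠ l j)
    (g κ : ℕ) (hg : 1 ≤ g) (hgκ : 4 * g ≤ κ) (hc : Fintype.card ι ≤ 2 ^ κ)
    (hpos : 0 < Fintype.card ι)
    (hD : (finrank (ZMod 2) ↥(D * L ^ g) : ℝ) < (1 / 2 + g / (16 * κ)) * Fintype.card ι) :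
    ∃ Ω : Finset ι, (finrank (ZMod 2) ↥(D.map (pull (fun i : Ω => (i : ι)))) : ℝ)
      ≤ (Ω.card : ℝ) / 2 - g / (16 * κ) * Fintype.card ι := by
  have hκ : 1 ≤ κ := by omega
  have hgR : (1 : ℝ) ≤ g := by exact_mod_cast hg
  have hκR : (0 : ℝ) < κ := by exact_mod_cast hκ
  have hgκR : 4 * (g : ℝ) ≤ κ := by exact_mod_cast hgκ
  set n : ℝ := (Fintype.card ι : ℝ) with hn
  have hn0 : 0 < n := by rw [hn]; exact_mod_cast hpos
  set δ : ℝ := g / (16 * (κ : ℝ)) with hδ
  have hδ0 : 0 < δ := by positivity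
  have hδ1 : δ ≤ 1 / 64 := by
    rw [hδ, div_le_div_iff₀ (by positivity) (by norm_num)]
    linarith
  by_cases hcase : (finrank (ZMod 2) D : ℝ) ≤ (1 / 2 - δ) * n
  · refine ⟨Finset.univ, ?_⟩
    rw [← finrank_res, map_res_univ, Finset.card_univ, ← hn]
    linarith
  push Not at hcase
  -- the chain
  set f : ℕ → ℝ := fun k => (finrank (ZMod 2) ↥(D * L ^ k) : ℝ) with hf
  have hmono : ∀ k, f k ≤ f (k + 1) := by
    intro k
    have : D * L ^ k ≤ D * L ^ (k + 1) := by
      rw [pow_succ, ← mul_assoc]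
      intro d hd
      have := Submodule.mul_mem_mul hd h1
      rwa [mul_one] at this
    show (finrank (ZMod 2) ↥(D * L ^ k) : ℝ) ≤ finrank (ZMod 2) ↥(D * L ^ (k + 1))
    exact_mod_cast Submodule.finrank_mono this
  have hf0 : f 0 = finrank (ZMod 2) D := by
    show (finrank (ZMod 2) ↥(D * L ^ 0) : ℝ) = _
    rw [pow_zero, mul_one]
  have hf0k : ∀ k, f 0 ≤ f k := by
    intro k
    induction k with
    | zero => exact le_rfl
    | succ k ih => exact ih.trans (hmono k)
  have hkg : ∀ k, k ≤ g → f k ≤ f g := by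
    intro k hk
    exact monotone_nat_of_le_succ hmono hk
  obtain ⟨k, hk, hstep⟩ := exists_step f g (2 * δ * n / g) (by
    have h2 : (g : ℝ) * (2 * δ * n / g) = 2 * δ * n := by
      field_simp
    rw [h2, hf0]
    have h3 : f g < (1 / 2 + δ) * n := hD
    linarith)
  -- the product
  set M := D * L ^ k with hM
  have hMk : (finrank (ZMod 2) M : ℝ) = f k := rfl
  have hlow : (1 / 2 - δ) * n < finrank (ZMod 2) M := by
    rw [hMk]
    exact hcase.trans_le (hf0 ▸ hf0k k)
  have hupp : (finrank (ZMod 2) M : ℝ) < (1 / 2 + δ) * n := by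
    rw [hMk]
    exact (hkg k hk.le).trans_lt hD
  have hprod : (finrank (ZMod 2) ↥(M * L) : ℝ)
      ≤ (1 + 2 * (2 / (5 * κ)) / 3) * finrank (ZMod 2) M := by
    have h2 : (finrank (ZMod 2) ↥(M * L) : ℝ) = f (k + 1) := by
      show _ = (finrank (ZMod 2) ↥(D * L ^ (k + 1)) : ℝ)
      rw [hM, pow_succ, mul_assoc]
    rw [h2]
    have h3 : 2 * δ * n / g = n / (8 * κ) := by
      rw [hδ]
      field_simp
      ring
    rw [h3] at hstep
    have h4 : n / (8 * κ) ≤ 2 * (2 / (5 * κ)) / 3 * finrank (ZMod 2) M := by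
      have h5 : 2 * (2 / (5 * (κ : ℝ))) / 3 * ((1 / 2 - 1 / 64) * n)
          ≤ 2 * (2 / (5 * (κ : ℝ))) / 3 * finrank (ZMod 2) M := by
        apply mul_le_mul_of_nonneg_left _ (by positivity)
        nlinarith
      refine le_trans ?_ h5
      rw [div_le_iff₀ (by positivity)]
      have h6 : 2 * (2 / (5 * (κ : ℝ))) / 3 * ((1 / 2 - 1 / 64) * n) * (8 * κ)
          = (32 / 15 * (31 / 64)) * n := by
        field_simp
        ring
      rw [h6]
      linarith
    have h7 : (1 + 2 * (2 / (5 * (κ : ℝ))) / 3) * (finrank (ZMod 2) M : ℝ)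
        = finrank (ZMod 2) M + 2 * (2 / (5 * (κ : ℝ))) / 3 * finrank (ZMod 2) M := by ring
    rw [h7]
    have h8 : f (k + 1) < f k + n / (8 * κ) := by linarith
    rw [hMk] at h4 ⊢
    linarith
  obtain ⟨S, hSD, hS3, hS⟩ := exists_large L M h1 (2 / (5 * κ)) (by positivity) hprod
  have h8 : (finrank (ZMod 2) ↥(S * L ^ κ) : ℝ) ≤ 3 / 2 * finrank (ZMod 2) S :=
    (hS κ).trans (mul_le_mul_of_nonneg_right (exp_bound' κ hκ) (Nat.cast_nonneg _))
  have h9 : ((supp S).card : ℝ) ≤ finrank (ZMod 2) ↥(S * L ^ κ) := by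
    exact_mod_cast card_supp_le L S h1 hsep κ hc
  refine ⟨(supp S)ᶜ, ?_⟩
  rw [← finrank_res]
  have h11 := finrank_map_add (res (supp S)ᶜ) M
  have h12 : S ≤ M ⊓ LinearMap.ker (res (supp S)ᶜ) := by
    intro s hs
    refine ⟨hSD hs, ?_⟩
    show res (supp S)ᶜ s = 0
    funext i
    rw [res_apply]
    split_ifs with hi
    · by_contra hsi
      exact (Finset.mem_compl.1 hi) (mem_supp.2 ⟨s, hs, hsi⟩)
    · rfl
  have h13 := Submodule.finrank_mono h12
  have h14 : (finrank (ZMod 2) ↥(M.map (res (supp S)ᶜ)) : ℝ) + finrank (ZMod 2) S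
      ≤ finrank (ZMod 2) M := by
    have : finrank (ZMod 2) ↥(M.map (res (supp S)ᶜ)) + finrank (ZMod 2) S
        ≤ finrank (ZMod 2) ↥M := by omega
    exact_mod_cast this
  have h15 : (finrank (ZMod 2) ↥(D.map (res (supp S)ᶜ)) : ℝ)
      ≤ finrank (ZMod 2) ↥(M.map (res (supp S)ᶜ)) := by
    have h16 : D ≤ M := by
      rw [hM]
      intro d hd
      have h17 : (1 : ι → ZMod 2) ∈ L ^ k := by
        have := Submodule.pow_mem_pow L h1 k
        rwa [one_pow] at this
      have := Submodule.mul_mem_mul hd h17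
      rwa [mul_one] at this
    exact_mod_cast Submodule.finrank_mono (Submodule.map_mono h16)
  have h18 : (((supp S)ᶜ.card : ℕ) : ℝ) = n - (supp S).card := by
    rw [Finset.card_compl, Nat.cast_sub (Finset.card_le_univ _)]
  rw [h18]
  have h19 : (1 / 2 - δ) * n ≤ 3 * finrank (ZMod 2) S := hlow.le.trans hS3
  nlinarith

end Sep

end RMG
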