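import Pool.Agent.Helper44.HO.Key
import Pool.Agent.GRM.Dich

/-! # Counting injective null families with the dichotomy over several degree steps (row R2) -/

set_option autoImplicit false
set_option linter.unusedSectionVars false

open scoped BigOperators
open Classical Module

namespace RMG
open RMH

section NC

variable {ι : Type} [Fintype ι]
variable {V W : Type} [AddCommGroup V] [Module (ZMod 2) V] [Fintype V]
  [AddCommGroup W] [Module (ZMod 2) W] [Fintype W]

lemma finrank_mono_le {t u : ℕ} (h : t ≤ u) (z : ι → V) :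
    finrank (ZMod 2) ↥((PP V t).map (pull z)) ≤ finrank (ZMod 2) ↥((PP V u).map (pull z)) :=
  Submodule.finrank_mono (Submodule.map_mono (PP_mono h))

/-- every injective family with small rank in degree `t + g` has a deficient restriction in degree `t` -/
lemma exists_omega' (t g κ : ℕ) (hg : 1 ≤ g) (hgκ : 4 * g ≤ κ) (hc : Fintype.card ι ≤ 2 ^ κ)
    (hpos : 0 < Fintype.card ι) (z : ι → V) (hz : Function.Injective z)
    (hd : (finrank (ZMod 2) ↥((PP V (t + g)).map (pull z)) : ℝ)
      < (1 / 2 + g / (16 * κ)) * Fintype.card ι) :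
    ∃ Ω : Finset ι, (finrank (ZMod 2) ↥((PP V t).map (pull (fun i : Ω => z i))) : ℝ)
      ≤ Ω.card / 2 - g / (16 * κ) * Fintype.card ι := by
  have h1 := dichotomy' ((Aff V).map (pull z)) ((PP V t).map (pull z)) ⟨1, one_mem_Aff44, rfl⟩
    (fun i j hij => by
      have hne : z i - z j ≠ 0 := sub_ne_zero.2 (fun h => hij (hz h))
      obtain ⟨b, hb⟩ := RMC.exists_dual_one hne
      refine ⟨fun k => b (z k), ⟨fun v => b v, dual_mem_Aff44 b, rfl⟩, fun h => ?_⟩
      rw [map_sub] at hb
      have h2 : b (z i) = b (z j) := h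
      rw [h2, sub_self] at hb
      exact zero_ne_one hb)
    g κ hg hgκ hc hpos (by
      rw [← map_pull_pow, ← map_pull_mul, show PP V t * Aff V ^ g = PP V (t + g) from
        (pow_add _ _ _).symm]
      exact hd)
  obtain ⟨Ω, hΩ⟩ := h1
  refine ⟨Ω, ?_⟩
  rw [map_pull_pull] at hΩ
  exact hΩ

/-- the assembly -/
theorem good_count' (hB : ClosureCount) (t g a κ w j l : ℕ) (hι : Fintype.card ι = 2 * w)
    (hw0 : 1 ≤ w) (ha : 4 * w < (a - t).choose t) (hg : 1 ≤ g) (hgκ : 4 * g ≤ κ) (hw : 2 * w ≤ 2 ^ κ)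
    (hV : Fintype.card V = 2 ^ j) (hW : Fintype.card W = 2 ^ l) (hjl : 2 * l ≤ j) :
    (cnt (fun x : ι → V × W => Null (t + g + 1) x ∧ Function.Injective (fun i => (x i).1)) : ℝ)
      ≤ (2 * (j + 1) + 2 * w)
        * P2 ((j + l) * w + (a + 3) * (2 * w) - l * (2 * w) * (g / (16 * κ))) := by
  have hκ : 1 ≤ κ := by omega
  obtain ⟨S, hS, hsplit⟩ : ∃ S : Finset (ι → V), (∀ z, z ∈ S ↔ Null (t + g + 1) z ∧
      Function.Injective z) ∧
      cnt (fun x : ι → V × W => Null (t + g + 1) x ∧ Function.Injective (fun i => (x i).1))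
      ≤ ∑ z ∈ S, Fintype.card W ^ (Fintype.card ι
        - finrank (ZMod 2) ↥((PP V (t + g)).map (pull z))) :=
    card_split' (ι := ι) (V := V) (W := W) (t + g) (fun z => Function.Injective z)
  set n : ℝ := 2 * (w : ℝ) with hn
  have hcard : (Fintype.card ι : ℝ) = n := by rw [hι]; push_cast; rfl
  have hn0 : 0 < n := by
    have : (1 : ℝ) ≤ w := by exact_mod_cast hw0
    linarith
  have hgR : (1 : ℝ) ≤ g := by exact_mod_cast hg
  set δ : ℝ := g / (16 * (κ : ℝ)) with hδ
  have hκ1 : (1 : ℝ) ≤ κ := by exact_mod_cast hκ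
  have hδ0 : 0 < δ := by positivity
  have hl0 : (0 : ℝ) ≤ l := Nat.cast_nonneg _
  have hj0 : (0 : ℝ) ≤ j := Nat.cast_nonneg _
  have ha0 : (0 : ℝ) ≤ a := Nat.cast_nonneg _
  have hjlR : 2 * (l : ℝ) ≤ j := by exact_mod_cast hjl
  set E : ℝ := (j + l) * w + (a + 3) * (2 * w) - l * (2 * w) * (g / (16 * κ)) with hE
  have hE' : E = (j + l) * n / 2 + (a + 3) * n - l * (δ * n) := by
    rw [hE, hn, hδ]
    ring
  set d : (ι → V) → ℕ := fun z => finrank (ZMod 2) ↥((PP V (t + g)).map (pull z)) with hd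
  have hdle : ∀ z, d z ≤ Fintype.card ι := by
    intro z
    have := Submodule.finrank_le ((PP V (t + g)).map (pull z))
    rwa [finrank_fintype_fun_eq_card] at this
  -- the three parts
  set A3 : (ι → V) → Prop := fun z => ∃ Ω : Finset ι, Null (t + 2) z ∧
      (finrank (ZMod 2) ↥((PP V t).map (pull (fun i : Ω => z i))) : ℝ)
        ≤ Ω.card / 2 - δ * Fintype.card ι with hA3
  set fa : ℝ := P2 (l * ((1 / 2 - δ) * n)) with hfa
  set fb : (ι → V) → ℝ := fun z => ∑ e ∈ Finset.range (2 * w),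
    if (finrank (ZMod 2) ↥((PP V t).map (pull z)) ≤ e ∧ (e : ℝ) < (1 / 2 - δ) * n)
    then P2 (l * (n - e)) else 0 with hfb
  set fc : (ι → V) → ℝ := fun z => if A3 z then P2 (l * ((1 / 2 + δ) * n)) else 0 with hfc
  have hfb0 : ∀ z, 0 ≤ fb z := by
    intro z
    refine Finset.sum_nonneg (fun e _ => ?_)
    split_ifs
    · exact (P2_pos _).le
    · exact le_rfl
  have hfc0 : ∀ z, 0 ≤ fc z := by
    intro z
    show 0 ≤ if A3 z then P2 (l * ((1 / 2 + δ) * n)) else 0
    split_ifs
    · exact (P2_pos _).le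
    · exact le_rfl
  have hpt : ∀ z ∈ S, (((2 ^ l) ^ (Fintype.card ι - d z) : ℕ) : ℝ) ≤ fa + fb z + fc z := by
    intro z hz
    have hz2 := (hS z).1 hz
    have h1 : (((2 ^ l) ^ (Fintype.card ι - d z) : ℕ) : ℝ) = P2 (l * (n - d z)) := by
      push_cast
      rw [← pow_mul, P2_nat, Nat.cast_mul, Nat.cast_sub (hdle z), hcard]
    rw [h1]
    by_cases hA : (1 / 2 + δ) * n ≤ d z
    · have h2 : P2 (l * (n - d z)) ≤ fa := by
        apply P2_mono
        apply mul_le_mul_of_nonneg_left _ hl0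
        linarith
      have := hfb0 z
      have := hfc0 z
      linarith
    push Not at hA
    by_cases hBc : (d z : ℝ) < (1 / 2 - δ) * n
    · have h3 : P2 (l * (n - d z)) ≤ fb z := by
        have h4 : d z ∈ Finset.range (2 * w) := by
          rw [Finset.mem_range]
          have h5 : (d z : ℝ) < n := by nlinarith
          rw [hn] at h5
          exact_mod_cast h5
        refine le_trans (le_of_eq ?_) (Finset.single_le_sum (f := fun e =>
          if (finrank (ZMod 2) ↥((PP V t).map (pull z)) ≤ e ∧ (e : ℝ) < (1 / 2 - δ) * n)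
          then P2 (l * (n - e)) else 0) (fun e _ => ?_) h4)
        · show _ = if (finrank (ZMod 2) ↥((PP V t).map (pull z)) ≤ d z
            ∧ (d z : ℝ) < (1 / 2 - δ) * n) then P2 (l * (n - d z)) else 0
          rw [if_pos ⟨finrank_mono_le (Nat.le_add_right t g) z, hBc⟩]
        · show 0 ≤ if (finrank (ZMod 2) ↥((PP V t).map (pull z)) ≤ e
            ∧ (e : ℝ) < (1 / 2 - δ) * n) then P2 (l * (n - e)) else 0
          split_ifs
          · exact (P2_pos _).le
          · exact le_rfl
      have := (P2_pos (l * ((1 / 2 - δ) * n))).le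
      have := hfc0 z
      linarith
    push Not at hBc
    have h6 : A3 z := by
      obtain ⟨Ω, hΩ⟩ := exists_omega' t g κ hg hgκ (by rw [hι]; exact hw) (by omega) z hz2.2
        (by rw [hcard]; exact hA)
      exact ⟨Ω, hz2.1.mono (by omega), hΩ⟩
    have h7 : P2 (l * (n - d z)) ≤ fc z := by
      show _ ≤ if A3 z then P2 (l * ((1 / 2 + δ) * n)) else 0
      rw [if_pos h6]
      apply P2_mono
      apply mul_le_mul_of_nonneg_left _ hl0
      linarith
    have := (P2_pos (l * ((1 / 2 - δ) * n))).le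
    have := hfb0 z
    linarith
  have hsum : (cnt (fun x : ι → V × W => Null (t + g + 1) x ∧ Function.Injective (fun i => (x i).1)) : ℝ)
      ≤ ∑ z ∈ S, (fa + fb z + fc z) := by
    rw [hW] at hsplit
    have h1 : (cnt (fun x : ι → V × W =>
        Null (t + g + 1) x ∧ Function.Injective (fun i => (x i).1)) : ℝ)
        ≤ ((∑ z ∈ S, (2 ^ l) ^ (Fintype.card ι - d z) : ℕ) : ℝ) :=
      Nat.cast_le.2 hsplit
    refine h1.trans ?_
    rw [Nat.cast_sum]
    exact Finset.sum_le_sum hpt
  refine hsum.trans ?_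
  rw [Finset.sum_add_distrib, Finset.sum_add_distrib]
  -- part (a)
  have hpa : ∑ _z ∈ S, fa ≤ (j + 1) * P2 E := by
    rw [Finset.sum_const, nsmul_eq_mul]
    have h1 : S.card ≤ nX ι V (t + 2) := by
      unfold nX
      rw [cnt_eq]
      exact Finset.card_le_card (fun z hz => Finset.mem_filter.2
        ⟨Finset.mem_univ _, ((hS z).1 hz).1.mono (by omega)⟩)
    have h2 := nX_le (ι := ι) hB t a w hι (by omega) j V hV
    have h3 : (S.card : ℝ) ≤ (j + 1) * P2 (j * w + (a + 2) * (2 * w)) := by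
      have h4 : (S.card : ℝ) ≤ (((j + 1) * 2 ^ (j * w + (a + 2) * (2 * w)) : ℕ) : ℝ) := by
        exact_mod_cast h1.trans h2
      refine h4.trans (le_of_eq ?_)
      rw [Nat.cast_mul, Nat.cast_pow, Nat.cast_ofNat, P2_nat]
      push_cast
      ring
    calc (S.card : ℝ) * fa ≤ (j + 1) * P2 (j * w + (a + 2) * (2 * w)) * fa :=
          mul_le_mul_of_nonneg_right h3 (P2_pos _).le
      _ = (j + 1) * P2 ((j * w + (a + 2) * (2 * w)) + l * ((1 / 2 - δ) * n)) := by
          rw [hfa, P2_add (j * w + (a + 2) * (2 * w))]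
          ring
      _ ≤ (j + 1) * P2 E := by
          refine mul_le_mul_of_nonneg_left (P2_mono ?_) (by positivity)
          rw [hE', hn]
          nlinarith
  -- part (b)
  have hpb : ∑ z ∈ S, fb z ≤ n * P2 E := by
    rw [hfb, Finset.sum_comm]
    have h1 : ∀ e ∈ Finset.range (2 * w), ∑ z ∈ S,
        (if (finrank (ZMod 2) ↥((PP V t).map (pull z)) ≤ e ∧ (e : ℝ) < (1 / 2 - δ) * n)
        then P2 (l * (n - e)) else 0) ≤ P2 E := by
      intro e _
      by_cases he : (e : ℝ) < (1 / 2 - δ) * n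
      · have h2 := hB ι V t a e (by rw [hι]; omega)
        rw [hι, hV, cnt_eq] at h2
        calc ∑ z ∈ S,
            (if (finrank (ZMod 2) ↥((PP V t).map (pull z)) ≤ e ∧ (e : ℝ) < (1 / 2 - δ) * n)
            then P2 (l * (n - e)) else 0)
            ≤ ∑ z : ι → V, (if (finrank (ZMod 2) ↥((PP V t).map (pull z)) ≤ e)
              then P2 (l * (n - e)) else 0) := by
              refine (Finset.sum_le_sum (fun z _ => ?_)).trans
                (Finset.sum_le_sum_of_subset_of_nonneg (Finset.subset_univ S) (fun z _ _ => ?_))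
              · by_cases h3 : finrank (ZMod 2) ↥((PP V t).map (pull z)) ≤ e
                · rw [if_pos ⟨h3, he⟩, if_pos h3]
                · rw [if_neg (fun h => h3 h.1), if_neg h3]
              · split_ifs
                · exact (P2_pos _).le
                · exact le_rfl
          _ = ((Finset.univ.filter (fun z : ι → V =>
              finrank (ZMod 2) ↥((PP V t).map (pull z)) ≤ e)).card : ℝ) * P2 (l * (n - e)) := by
              rw [← Finset.sum_filter, Finset.sum_const, nsmul_eq_mul]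
          _ ≤ ((2 ^ (2 * w) * (2 ^ j) ^ e * 2 ^ (a * (2 * w)) : ℕ) : ℝ) * P2 (l * (n - e)) := by
              refine mul_le_mul_of_nonneg_right ?_ (P2_pos _).le
              exact_mod_cast h2
          _ = P2 ((n + j * e + a * n) + l * (n - e)) := by
              rw [P2_add]
              congr 1
              push_cast
              rw [← pow_mul, P2_nat, P2_nat, P2_nat, ← P2_add, ← P2_add]
              congr 1
              push_cast
              ring
          _ ≤ P2 E := by
              apply P2_mono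
              rw [hE']
              have h5 : ((j : ℝ) - l) * e ≤ (j - l) * ((1 / 2 - δ) * n) :=
                mul_le_mul_of_nonneg_left he.le (by linarith)
              have h6 : 0 ≤ ((j : ℝ) - 2 * l) * (δ * n) :=
                mul_nonneg (by linarith) (by positivity)
              nlinarith
      · have h7 : ∑ z ∈ S,
            (if (finrank (ZMod 2) ↥((PP V t).map (pull z)) ≤ e ∧ (e : ℝ) < (1 / 2 - δ) * n)
            then P2 (l * (n - e)) else 0) = 0 := by
          refine Finset.sum_eq_zero (fun z _ => ?_)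
          rw [if_neg (fun h => he h.2)]
        rw [h7]
        exact (P2_pos _).le
    refine (Finset.sum_le_sum h1).trans (le_of_eq ?_)
    rw [Finset.sum_const, nsmul_eq_mul, Finset.card_range, hn]
    push_cast
    ring
  -- part (c)
  have hpc : ∑ z ∈ S, fc z ≤ (j + 1) * P2 E := by
    have h1 : ∑ z ∈ S, fc z ≤ (cnt A3 : ℝ) * P2 (l * ((1 / 2 + δ) * n)) := by
      rw [cnt_eq, hfc, ← Finset.sum_filter, Finset.sum_const, nsmul_eq_mul]
      refine mul_le_mul_of_nonneg_right ?_ (P2_pos _).le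
      exact_mod_cast Finset.card_le_card (Finset.filter_subset_filter _ (Finset.subset_univ S))
    have h2 : (cnt A3 : ℝ) ≤ P2 n * ((j + 1) * P2 ((a + 2) * n + j * n / 2 - j * (δ * n))) := by
      have h3 : (cnt A3 : ℝ) ≤ ((∑ Ω : Finset ι, cnt (fun z : ι → V => Null (t + 2) z ∧
          (finrank (ZMod 2) ↥((PP V t).map (pull (fun i : Ω => z i))) : ℝ)
            ≤ Ω.card / 2 - δ * Fintype.card ι) : ℕ) : ℝ) := by
        exact_mod_cast cnt_exists (fun (Ω : Finset ι) (z : ι → V) => Null (t + 2) z ∧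
          (finrank (ZMod 2) ↥((PP V t).map (pull (fun i : Ω => z i))) : ℝ)
            ≤ Ω.card / 2 - δ * Fintype.card ι)
      refine h3.trans ?_
      rw [Nat.cast_sum]
      refine (Finset.sum_le_sum (fun Ω _ =>
        cnt_omega_le (ι := ι) (V := V) hB t a (by rw [hι]; omega) j hV δ Ω)).trans ?_
      rw [hcard, Finset.sum_const, Finset.card_univ, Fintype.card_finset, nsmul_eq_mul, hι]
      refine le_of_eq ?_
      congr 1
      push_cast
      rw [P2_nat, hn]
      push_cast
      rfl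
    calc ∑ z ∈ S, fc z ≤ (cnt A3 : ℝ) * P2 (l * ((1 / 2 + δ) * n)) := h1
      _ ≤ P2 n * ((j + 1) * P2 ((a + 2) * n + j * n / 2 - j * (δ * n)))
          * P2 (l * ((1 / 2 + δ) * n)) := mul_le_mul_of_nonneg_right h2 (P2_pos _).le
      _ = (j + 1) * P2 (n + ((a + 2) * n + j * n / 2 - j * (δ * n))
          + l * ((1 / 2 + δ) * n)) := by
          rw [P2_add (n + ((a + 2) * n + j * n / 2 - j * (δ * n))), P2_add n]
          ring
      _ ≤ (j + 1) * P2 E := by
          refine mul_le_mul_of_nonneg_left (P2_mono ?_) (by positivity)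
          rw [hE']
          have h6 : 0 ≤ ((j : ℝ) - 2 * l) * (δ * n) :=
            mul_nonneg (by linarith) (by positivity)
          nlinarith
  linarith

end NC

/-- (C) the number of injective null families -/
theorem null_count_cnt' (hB : ClosureCount) (t g a κ w m : ℕ) (hg : 1 ≤ g) (hgκ : 4 * g ≤ κ) (ha : 4 * w < (a - t).choose t)
    (hw : 2 * w ≤ 2 ^ κ) (hw0 : 1 ≤ w) (V : Type) [AddCommGroup V] [Module (ZMod 2) V] [Fintype V]
    (hV : Fintype.card V = 2 ^ m) (hm : 4 * κ ≤ m) :
    (cnt (fun x : Fin (2 * w) → V => Function.Injective x ∧ Null (t + g + 1) x) : ℝ)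
      ≤ 4 * (m + 1) *
        (2 : ℝ) ^ ((m * w : ℝ) + 2 * (a + 4) * w - 2 * w * (m / 4 : ℕ) * (g / (16 * κ))) := by
  have hκ : 1 ≤ κ := by omega
  set l := m / 4 with hl
  set j := m - l with hj
  have hjl : j + l = m := by omega
  have hV1 : Fintype.card (Fin j → ZMod 2) = 2 ^ j := by
    rw [Fintype.card_fun, ZMod.card, Fintype.card_fin]
  have hW1 : Fintype.card (Fin l → ZMod 2) = 2 ^ l := by
    rw [Fintype.card_fun, ZMod.card, Fintype.card_fin]
  have h1 := good_split (ι := Fin (2 * w)) (V := V) (V1 := Fin j → ZMod 2)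
    (W1 := Fin l → ZMod 2) m j l (by omega) hV hV1 hW1 hjl (t + g + 1) (by
      rw [Fintype.card_fin]
      calc 2 * (2 * w) ^ 2 ≤ 2 * (2 ^ κ) ^ 2 := by gcongr
        _ = 2 ^ (κ * 2 + 1) := by rw [← pow_mul, pow_succ]; ring
        _ ≤ 2 ^ j := Nat.pow_le_pow_right (by norm_num) (by omega))
  have h2 := good_count' (ι := Fin (2 * w)) (V := Fin j → ZMod 2) (W := Fin l → ZMod 2) hB t g a κ w
    j l (Fintype.card_fin _) hw0 ha hg hgκ hw hV1 hW1 (by omega)
  have h3 : (cnt (fun x : Fin (2 * w) → V => Function.Injective x ∧ Null (t + g + 1) x) : ℝ)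
      ≤ 2 * (cnt (fun x : Fin (2 * w) → (Fin j → ZMod 2) × (Fin l → ZMod 2) =>
        Null (t + g + 1) x ∧ Function.Injective (fun i => (x i).1)) : ℝ) := by
    exact_mod_cast h1
  refine h3.trans ((mul_le_mul_of_nonneg_left h2 (by norm_num)).trans ?_)
  have hmR : (m : ℝ) = j + l := by rw [← hjl]; push_cast; ring
  have h4 : P2 ((j + l) * w + (a + 3) * (2 * w) - l * (2 * w) * (g / (16 * κ)))
      * P2 (2 * w) = (2 : ℝ) ^ ((m * w : ℝ) + 2 * (a + 4) * w - 2 * w * (l : ℕ) * (g / (16 * κ))) := by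
    rw [← P2_add]
    unfold P2
    congr 1
    rw [hmR]
    ring
  rw [← h4]
  have h5 : (2 : ℝ) * (2 * (j + 1) + 2 * w) ≤ 4 * (m + 1) * P2 (2 * w) := by
    have h6 : (2 * w : ℝ) + 1 ≤ P2 (2 * w) := by
      have h7 : (2 * w + 1 : ℕ) ≤ 2 ^ (2 * w) := Nat.lt_two_pow_self
      have h8 : ((2 * w + 1 : ℕ) : ℝ) ≤ ((2 ^ (2 * w) : ℕ) : ℝ) := by exact_mod_cast h7
      rw [Nat.cast_pow, Nat.cast_ofNat, P2_nat] at h8
      push_cast at h8
      linarith
    have h9 : (j : ℝ) ≤ m := by
      rw [hmR]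
      have : (0 : ℝ) ≤ l := Nat.cast_nonneg _
      linarith
    have h10 : (0 : ℝ) ≤ m := Nat.cast_nonneg _
    have h11 : (0 : ℝ) ≤ w := Nat.cast_nonneg _
    nlinarith
  calc (2 : ℝ) * ((2 * (j + 1) + 2 * w)
        * P2 ((j + l) * w + (a + 3) * (2 * w) - l * (2 * w) * (g / (16 * κ))))
      = (2 * (2 * (j + 1) + 2 * w))
        * P2 ((j + l) * w + (a + 3) * (2 * w) - l * (2 * w) * (g / (16 * κ))) := by ring
    _ ≤ (4 * (m + 1) * P2 (2 * w))
        * P2 ((j + l) * w + (a + 3) * (2 * w) - l * (2 * w) * (g / (16 * κ))) :=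
        mul_le_mul_of_nonneg_right h5 (P2_pos _).le
    _ = _ := by ring


end RMG
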