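import Mathlib

/-! # MP_11cd4d: the choice of the parameters for growing orders (row R4) -/

set_option autoImplicit false

open scoped BigOperators Nat

namespace RMG

/-- an elementary inequality -/
lemma small_ineq (l : ℕ) : l * (28 + 2 * l) ≤ 290 + 2 ^ l := by
  by_cases h : l ≤ 9
  · interval_cases l <;> norm_num
  · obtain ⟨k, rfl⟩ : ∃ k, l = 10 + k := ⟨l - 10, by omega⟩
    clear h
    induction k with
    | zero => norm_num
    | succ k ih =>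
      have h1 : 2 ^ (10 + (k + 1)) = 2 * 2 ^ (10 + k) := by
        rw [show 10 + (k + 1) = (10 + k) + 1 by ring, pow_succ]; ring
      have h2 : 10 + k < 2 ^ (10 + k) := Nat.lt_two_pow_self
      have h3 : 4 * 10 + 4 * k + 30 ≤ 2 ^ (10 + k) := by
        have h4 : k < 2 ^ k := Nat.lt_two_pow_self
        have h5 : 2 ^ (10 + k) = 1024 * 2 ^ k := by
          rw [pow_add]; norm_num
        omega
      rw [h1]
      nlinarith

/-- `C(n,t) ≤ (e n / t)^t` -/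
lemma choose_le_exp (n t : ℕ) (ht : 1 ≤ t) (B : ℝ) (hB : (n : ℝ) ≤ B * t) :
    (n.choose t : ℝ) ≤ (Real.exp 1 * B) ^ t := by
  have hT : (0 : ℝ) < t := by exact_mod_cast ht
  have hn : (0 : ℝ) ≤ n := Nat.cast_nonneg n
  have h1 : (n.choose t : ℝ) ≤ (n : ℝ) ^ t / (t ! : ℝ) := Nat.choose_le_pow_div t n
  have h2 : (t : ℝ) ^ t / (t ! : ℝ) ≤ Real.exp t := Real.pow_div_factorial_le_exp (t : ℝ) hT.le t
  have h3 : (n : ℝ) ^ t ≤ (B * t) ^ t := pow_le_pow_left₀ hn hB t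
  have hB0 : 0 ≤ B := by
    by_contra hneg
    push Not at hneg
    nlinarith
  have hf : (0 : ℝ) < (t ! : ℝ) := by exact_mod_cast Nat.factorial_pos t
  calc (n.choose t : ℝ) ≤ (n : ℝ) ^ t / (t ! : ℝ) := h1
    _ ≤ (B * t) ^ t / (t ! : ℝ) := by gcongr
    _ = B ^ t * ((t : ℝ) ^ t / (t ! : ℝ)) := by rw [mul_pow]; ring
    _ ≤ B ^ t * Real.exp t := by gcongr
    _ = (Real.exp 1 * B) ^ t := by
      rw [mul_pow, ← Real.exp_nat_mul, mul_one, mul_comm]

/-- `C(a - t, t) ≥ Y^t` for `a ≥ t (Y + 2)` -/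
lemma choose_lower (a t : ℕ) (ht : 1 ≤ t) (Y : ℝ) (hY : 0 ≤ Y) (ha : (t : ℝ) * (Y + 2) ≤ a) :
    Y ^ t ≤ ((a - t).choose t : ℝ) := by
  have hT1 : (1 : ℝ) ≤ t := by exact_mod_cast ht
  have hT0 : (0 : ℝ) < t := by linarith
  have hat : 2 * t ≤ a := by
    have h1 : (2 * t : ℝ) ≤ a := by nlinarith
    exact_mod_cast h1
  have hnn : Y ≤ ((a - t + 1 - t : ℕ) : ℝ) / t := by
    rw [le_div_iff₀ hT0]
    have h2 : a + 1 ≤ (a - t + 1 - t) + 2 * t := by omega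
    have h3 : ((a + 1 : ℕ) : ℝ) ≤ (((a - t + 1 - t) + 2 * t : ℕ) : ℝ) := by exact_mod_cast h2
    push_cast at h3
    nlinarith
  have h1 := Nat.pow_le_choose (α := ℝ) t (a - t)
  refine le_trans ?_ h1
  have h2 : (t ! : ℝ) ≤ (t : ℝ) ^ t := by exact_mod_cast Nat.factorial_le_pow t
  have h3 : (0 : ℝ) < (t ! : ℝ) := by exact_mod_cast Nat.factorial_pos t
  calc Y ^ t ≤ (((a - t + 1 - t : ℕ) : ℝ) / t) ^ t := pow_le_pow_left₀ hY hnn t
    _ = ((a - t + 1 - t : ℕ) : ℝ) ^ t / (t : ℝ) ^ t := div_pow _ _ _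
    _ ≤ ((a - t + 1 - t : ℕ) : ℝ) ^ t / (t ! : ℝ) := by gcongr

/-- the main inequality between the parameters -/
lemma main_real (l : ℕ) (Λ Y : ℝ) (hY36 : 36 ≤ Y) (hlΛ : (l : ℝ) + 7 ≤ Λ)
    (h2 : (2 : ℝ) ^ l ≤ 5.4365636572 * (Y + 2)) :
    32 * (l : ℝ) * (2 * Y + 21 + l + Λ) + 3 ≤ 64 * Λ * Y := by
  have hl0 : (0 : ℝ) ≤ l := Nat.cast_nonneg l
  have h1 : (l : ℝ) * (28 + 2 * l) ≤ 290 + 2 ^ l := by exact_mod_cast small_ineq l
  have h3 : (l : ℝ) * (28 + 2 * l) + 3 / 32 ≤ 14 * Y := by linarith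
  have h4 : (l : ℝ) ≤ 2 * Y := by nlinarith
  obtain ⟨ε, hε⟩ : ∃ ε, Λ = l + 7 + ε := ⟨Λ - l - 7, by ring⟩
  have hε0 : 0 ≤ ε := by linarith
  have h5 := mul_nonneg hε0 (sub_nonneg.2 h4)
  rw [hε]
  nlinarith

/-- `log₂ m + 1 ≤ log₂ (m/t) + t` -/
lemma lam_le (t m : ℕ) (ht : 1 ≤ t) (hm : m ≠ 0) :
    ((Nat.log 2 m : ℕ) : ℝ) + 1 ≤ Real.logb 2 ((m : ℝ) / t) + t := by
  have hT0 : (0 : ℝ) < t := by exact_mod_cast ht
  have hM0 : (0 : ℝ) < m := by exact_mod_cast Nat.pos_of_ne_zero hm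
  have h1 : ((Nat.log 2 m : ℕ) : ℝ) ≤ Real.logb 2 (m : ℝ) := by
    have := Real.natLog_le_logb m 2
    exact_mod_cast this
  have h2 : Real.logb 2 (m : ℝ) = Real.logb 2 ((m : ℝ) / t) + Real.logb 2 t := by
    rw [Real.logb_div hM0.ne' hT0.ne']; ring
  have h3 : Real.logb 2 (t : ℝ) ≤ t - 1 := by
    obtain ⟨k, hk⟩ : ∃ k, t = k + 1 := ⟨t - 1, by omega⟩
    have h4 : t ≤ 2 ^ k := by
      have : k < 2 ^ k := Nat.lt_two_pow_self
      omega
    have h5 : (t : ℝ) ≤ (2 : ℝ) ^ k := by exact_mod_cast h4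
    have h6 : Real.logb 2 (t : ℝ) ≤ Real.logb 2 ((2 : ℝ) ^ k) :=
      Real.logb_le_logb_of_le (by norm_num) hT0 h5
    rw [Real.logb_pow, Real.logb_self_eq_one (by norm_num), mul_one] at h6
    have h7 : (t : ℝ) = k + 1 := by rw [hk]; push_cast; ring
    linarith
  linarith

/-- the choice of the parameters -/
theorem params (t g m : ℕ) (ht : 1 ≤ t) (hg : 1 ≤ g) (hgt : g ≤ t) (htm : 2 * t ≤ m)
    (hY : 36 * (64 * (t : ℝ) ^ 2 * Real.logb 2 (m / t)) ≤ g * m) :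
    ∃ a κ lam s : ℕ, 6 ≤ s ∧ 4 * s < (a - t).choose t ∧ 2 * s ≤ 2 ^ κ ∧ 4 * g ≤ κ ∧
      m + 1 ≤ 2 ^ lam ∧ 8 * κ * (2 * a + 14 + κ + lam) ≤ g * (m / 4) ∧
      0.2222 * ((g : ℝ) * m / (64 * t ^ 2 * Real.logb 2 (m / t))) ^ t ≤ s := by
  have hT1 : (1 : ℝ) ≤ t := by exact_mod_cast ht
  have hG1 : (1 : ℝ) ≤ g := by exact_mod_cast hg
  have hGT : (g : ℝ) ≤ t := by exact_mod_cast hgt
  have hM2 : 2 * (t : ℝ) ≤ m := by exact_mod_cast htm
  have hm0 : m ≠ 0 := by omega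
  set T : ℝ := (t : ℝ) with hT
  set G : ℝ := (g : ℝ) with hG
  set M : ℝ := (m : ℝ) with hM
  set Λ : ℝ := Real.logb 2 (M / T) with hΛ
  have hT0 : 0 < T := by linarith
  have hG0 : 0 < G := by linarith
  have hM0 : 0 < M := by linarith
  have h2MT : 2 ≤ M / T := by rw [le_div_iff₀ hT0]; exact hM2
  have hMT0 : 0 < M / T := by linarith
  -- lower bounds for `Λ`
  have hlow : ∀ k : ℕ, (2 : ℝ) ^ k ≤ M / T → (k : ℝ) ≤ Λ := by
    intro k hk
    have h1 : Real.logb 2 ((2 : ℝ) ^ k) ≤ Real.logb 2 (M / T) :=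
      Real.logb_le_logb_of_le (by norm_num) (by positivity) hk
    rwa [Real.logb_pow, Real.logb_self_eq_one (by norm_num), mul_one] at h1
  have hΛ1 : 1 ≤ Λ := by
    have := hlow 1 (by simpa using h2MT)
    simpa using this
  have hΛ0 : 0 < Λ := by linarith
  set Y : ℝ := G * M / (64 * T ^ 2 * Λ) with hYdef
  have hden : 0 < 64 * T ^ 2 * Λ := by positivity
  have hYeq : G * M = 64 * T ^ 2 * Λ * Y := by
    rw [hYdef]; field_simp
  have hY36 : 36 ≤ Y := by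
    rw [hYdef, le_div_iff₀ hden]; exact hY
  have hY0 : 0 < Y := by linarith
  -- `M / T ≥ 64 Λ Y`
  have hMTY : 64 * Λ * Y ≤ M / T := by
    rw [le_div_iff₀ hT0]
    have h1 : G * M ≤ T * M := mul_le_mul_of_nonneg_right hGT hM0.le
    rw [hYeq] at h1
    have h2 : T * (64 * Λ * Y * T) ≤ T * M := by
      calc T * (64 * Λ * Y * T) = 64 * T ^ 2 * Λ * Y := by ring
        _ ≤ T * M := h1
    exact le_of_mul_le_mul_left h2 hT0
  have hΛ11 : 11 ≤ Λ := by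
    have := hlow 11 (by
      have h1 : 64 * 1 * 36 ≤ 64 * Λ * Y := by gcongr
      norm_num at h1 ⊢
      linarith)
    exact_mod_cast this
  have hΛ14 : 14 ≤ Λ := by
    have := hlow 14 (by
      have h1 : 64 * 11 * 36 ≤ 64 * Λ * Y := by gcongr
      norm_num at h1 ⊢
      linarith)
    exact_mod_cast this
  have hMTY' : 896 * Y ≤ M / T := by
    have h1 : 64 * 14 * Y ≤ 64 * Λ * Y := by gcongr
    linarith
  -- `l`
  have he : Real.exp 1 < 2.7182818286 := Real.exp_one_lt_d9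
  have he' : 2.7182818283 < Real.exp 1 := Real.exp_one_gt_d9
  set W : ℝ := Real.exp 1 * (Y + 2) with hW
  have hW0 : 0 < W := by positivity
  set l : ℕ := ⌈Real.logb 2 W⌉₊ with hl
  have hWl : W ≤ 2 ^ l := by
    have h1 : Real.logb 2 W ≤ l := Nat.le_ceil _
    rw [Real.logb_le_iff_le_rpow (by norm_num) hW0, Real.rpow_natCast] at h1
    exact h1
  have hlogW0 : 0 ≤ Real.logb 2 W := by
    refine Real.logb_nonneg (by norm_num) ?_
    have hW3 : 2.7 * (Y + 2) ≤ W := mul_le_mul_of_nonneg_right (by linarith) (by linarith)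
    linarith
  have hl1 : (l : ℝ) < Real.logb 2 W + 1 := Nat.ceil_lt_add_one hlogW0
  have hWl' : (2 : ℝ) ^ l ≤ 2 * W := by
    have h1 : Real.logb 2 (2 ^ l) ≤ Real.logb 2 (2 * W) := by
      rw [Real.logb_pow, Real.logb_self_eq_one (by norm_num), mul_one,
        Real.logb_mul (by norm_num) hW0.ne', Real.logb_self_eq_one (by norm_num)]
      linarith
    exact (Real.logb_le_logb (by norm_num) (by positivity) (by positivity)).1 h1
  have hW1 : W ≤ 2.7182818286 * (Y + 2) := mul_le_mul_of_nonneg_right he.le (by linarith)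
  have hW2 : 2 * W ≤ 5.4365636572 * (Y + 2) := by linarith
  have hW3 : 2.7 * (Y + 2) ≤ W := mul_le_mul_of_nonneg_right (by linarith) (by linarith)
  have hW256 : 256 * W ≤ M / T := by
    refine le_trans ?_ hMTY'
    linarith
  have hlΛ : (l : ℝ) + 7 ≤ Λ := by
    have h1 : Real.logb 2 (256 * W) ≤ Λ :=
      Real.logb_le_logb_of_le (by norm_num) (by positivity) hW256
    have h2 : Real.logb 2 (256 * W) = 8 + Real.logb 2 W := by
      rw [Real.logb_mul (by norm_num) hW0.ne', show (256 : ℝ) = 2 ^ 8 by norm_num,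
        Real.logb_pow, Real.logb_self_eq_one (by norm_num)]
      norm_num
    linarith
  have hl7 : 7 ≤ l := by
    by_contra hcon
    have h1 : l ≤ 6 := by omega
    have h2 : (2 : ℝ) ^ l ≤ 2 ^ 6 := pow_le_pow_right₀ (by norm_num) h1
    have h3 : (2 : ℝ) ^ 6 = 64 := by norm_num
    linarith
  -- `a`
  set a : ℕ := ⌈T * (Y + 2)⌉₊ with ha
  have hau : T * (Y + 2) ≤ a := Nat.le_ceil _
  have hau' : (a : ℝ) < T * (Y + 2) + 1 := Nat.ceil_lt_add_one (by positivity)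
  -- the binomial coefficient
  have hTY : 0 < T * Y := mul_pos hT0 hY0
  have hat : 2 * t ≤ a := by
    have h1 : (2 * t : ℝ) ≤ a := by
      have h2 : T * (Y + 2) = T * Y + 2 * T := by ring
      linarith
    exact_mod_cast h1
  have hchoose : Y ^ t ≤ ((a - t).choose t : ℝ) := choose_lower a t ht Y hY0.le hau
  have hchoose' : ((a - t).choose t : ℝ) ≤ (2 : ℝ) ^ (t * l) := by
    have h1 : ((a - t : ℕ) : ℝ) ≤ (Y + 2) * T := by
      have h2 : a ≤ (a - t) + t := by omega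
      have h3 : ((a - t : ℕ) : ℝ) = a - T := by
        rw [Nat.cast_sub (by omega)]
      rw [h3]
      have h4 : T * (Y + 2) = (Y + 2) * T := mul_comm _ _
      linarith
    have h4 := choose_le_exp (a - t) t ht (Y + 2) h1
    refine h4.trans ?_
    rw [mul_comm t l, pow_mul]
    exact pow_le_pow_left₀ hW0.le hWl t
  have hYt : Y ≤ Y ^ t := by
    calc Y = Y ^ 1 := (pow_one Y).symm
      _ ≤ Y ^ t := pow_le_pow_right₀ (by linarith) ht
  -- `s`
  set C : ℕ := (a - t).choose t with hC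
  have hC36 : (36 : ℝ) ≤ C := by linarith
  have hC36N : 36 ≤ C := by exact_mod_cast hC36
  have hsR : (C : ℝ) / 4 - 1 ≤ (((C - 1) / 4 : ℕ) : ℝ) := by
    have h1 : C ≤ 4 * ((C - 1) / 4) + 4 := by omega
    have h2 : (C : ℝ) ≤ ((4 * ((C - 1) / 4) + 4 : ℕ) : ℝ) := by exact_mod_cast h1
    push_cast at h2
    linarith
  -- `lam`
  have hlam : ((Nat.log 2 m : ℕ) : ℝ) + 1 ≤ Λ + T := lam_le t m ht hm0
  refine ⟨a, t * l, Nat.log 2 m + 1, (C - 1) / 4, ?_, ?_, ?_, ?_, ?_, ?_, ?_⟩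
  · omega
  · omega
  · have h1 : C ≤ 2 ^ (t * l) := by exact_mod_cast hchoose'
    omega
  · calc 4 * g ≤ l * t := Nat.mul_le_mul (by omega) hgt
      _ = t * l := Nat.mul_comm l t
  · exact Nat.lt_pow_succ_log_self (by norm_num) m
  · -- the main inequality
    have hmain : 32 * (l : ℝ) * (2 * Y + 21 + l + Λ) + 3 ≤ 64 * Λ * Y := by
      exact main_real l Λ Y hY36 hlΛ (hWl'.trans hW2)
    have hl0 : (0 : ℝ) ≤ l := Nat.cast_nonneg l
    have hS : (2 * (a : ℝ) + 14 + T * l + ((Nat.log 2 m : ℕ) + 1)) ≤ T * (2 * Y + 21 + l + Λ) := by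
      have h1 : 2 * (a : ℝ) ≤ 2 * (T * (Y + 2) + 1) := by linarith
      have h2 : Λ ≤ T * Λ := le_mul_of_one_le_left hΛ0.le hT1
      have h3 : T * (2 * Y + 21 + l + Λ) = 2 * (T * Y) + 21 * T + T * l + T * Λ := by ring
      have h4 : 2 * (T * (Y + 2) + 1) = 2 * (T * Y) + 4 * T + 2 := by ring
      rw [h3]
      rw [h4] at h1
      linarith
    have hfin : 32 * (T * l) * (2 * (a : ℝ) + 14 + T * l + ((Nat.log 2 m : ℕ) + 1)) + 3 * G
        ≤ G * M := by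
      have h1 : 32 * (T * l) * (2 * (a : ℝ) + 14 + T * l + ((Nat.log 2 m : ℕ) + 1))
          ≤ 32 * (T * l) * (T * (2 * Y + 21 + l + Λ)) :=
        mul_le_mul_of_nonneg_left hS (by positivity)
      have h2 : 3 * G ≤ 3 * T ^ 2 := by
        have h21 : T ≤ T ^ 2 := by
          rw [pow_two]; exact le_mul_of_one_le_left hT0.le hT1
        linarith
      have h3 : T ^ 2 * (32 * (l : ℝ) * (2 * Y + 21 + l + Λ) + 3) ≤ T ^ 2 * (64 * Λ * Y) :=
        mul_le_mul_of_nonneg_left hmain (by positivity)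
      rw [hYeq]
      calc 32 * (T * l) * (2 * (a : ℝ) + 14 + T * l + ((Nat.log 2 m : ℕ) + 1)) + 3 * G
          ≤ 32 * (T * l) * (T * (2 * Y + 21 + l + Λ)) + 3 * T ^ 2 := add_le_add h1 h2
        _ = T ^ 2 * (32 * (l : ℝ) * (2 * Y + 21 + l + Λ) + 3) := by ring
        _ ≤ T ^ 2 * (64 * Λ * Y) := h3
        _ = 64 * T ^ 2 * Λ * Y := by ring
    have hN : 32 * (t * l) * (2 * a + 14 + t * l + (Nat.log 2 m + 1)) + 3 * g ≤ g * m := by
      have h1 : ((32 * (t * l) * (2 * a + 14 + t * l + (Nat.log 2 m + 1)) + 3 * g : ℕ) : ℝ)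
          ≤ ((g * m : ℕ) : ℝ) := by
        push_cast
        exact hfin
      exact_mod_cast h1
    have h4 : m ≤ 4 * (m / 4) + 3 := by omega
    have h5 : g * m ≤ g * (4 * (m / 4) + 3) := Nat.mul_le_mul_left g h4
    have h6 : g * (4 * (m / 4) + 3) = 4 * (g * (m / 4)) + 3 * g := by ring
    have h7 : 32 * (t * l) * (2 * a + 14 + t * l + (Nat.log 2 m + 1))
        = 4 * (8 * (t * l) * (2 * a + 14 + t * l + (Nat.log 2 m + 1))) := by ring
    rw [h7] at hN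
    rw [h6] at h5
    omega
  · have h1 : Y ^ t / 4 - 1 ≤ (((C - 1) / 4 : ℕ) : ℝ) := by linarith
    refine le_trans ?_ h1
    linarith

lemma sqrt_part (Y : ℝ) (hY : 0 ≤ Y) (t s : ℕ) (h : 0.2222 * Y ^ t ≤ s) :
    1 / 7 * Y ^ ((t : ℝ) / 2) ≤ Real.sqrt ((s : ℝ) / Real.exp 1) / 2 := by
  have he : Real.exp 1 < 2.7182818286 := Real.exp_one_lt_d9
  have hepos := Real.exp_pos 1
  have h1 : (2 / 7 * Y ^ ((t : ℝ) / 2)) ^ 2 ≤ (s : ℝ) / Real.exp 1 := by
    rw [mul_pow]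
    have h2 : (Y ^ ((t : ℝ) / 2)) ^ 2 = Y ^ t := by
      rw [← Real.rpow_natCast, ← Real.rpow_mul hY, ← Real.rpow_natCast]
      congr 1
      push_cast
      ring
    rw [h2, le_div_iff₀ hepos]
    have h3 : 0 ≤ Y ^ t := by positivity
    have h4 : (2 / 7 : ℝ) ^ 2 * Y ^ t * Real.exp 1 ≤ (2 / 7 : ℝ) ^ 2 * Y ^ t * 2.7182818286 := by
      gcongr
    nlinarith
  have h5 := Real.sqrt_le_sqrt h1
  rw [Real.sqrt_sq (by positivity)] at h5
  linarith

end RMG
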