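import Pool.Agent.GRM.Key
import Pool.Agent.GRM.Params

/-! # MP_11cd4d: the explicit bound for growing orders (row R4) -/

set_option autoImplicit false

open scoped BigOperators

namespace RMG

/-- For `1 ≤ g ≤ t`, `2 t ≤ m` and `g m ≥ 36 * 64 t² log₂ (m/t)`:
`ρ(t+g+1, m) ≤ 2^(m-1) - (1/7) (g m / (64 t² log₂ (m/t)))^(t/2) 2^(m/2)`. -/
theorem explicit (t g m : ℕ) (ht : 1 ≤ t) (hg : 1 ≤ g) (hgt : g ≤ t) (htm : 2 * t ≤ m)
    (hY : 36 * (64 * (t : ℝ) ^ 2 * Real.logb 2 (m / t)) ≤ g * m) :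
    (RMC71.covRadius (t + g + 1) m : ℝ) ≤ 2 ^ m / 2 -
      1 / 7 * ((g : ℝ) * m / (64 * t ^ 2 * Real.logb 2 (m / t))) ^ ((t : ℝ) / 2)
        * Real.sqrt (2 ^ m) := by
  obtain ⟨a, κ, lam, s, h1, h2, h3, h4, h5, h6, h7⟩ := params t g m ht hg hgt htm hY
  have h8 := grow t g a κ lam s m hg h1 h2 h3 h4 h5 h6
  have hlog : 0 ≤ Real.logb 2 ((m : ℝ) / t) := by
    refine Real.logb_nonneg (by norm_num) ?_
    have hT0 : (0 : ℝ) < t := by exact_mod_cast ht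
    rw [le_div_iff₀ hT0, one_mul]
    have : (t : ℝ) ≤ m := by exact_mod_cast (by omega : t ≤ m)
    exact this
  have h9 := sqrt_part ((g : ℝ) * m / (64 * t ^ 2 * Real.logb 2 (m / t))) (by positivity) t s h7
  have h10 := mul_le_mul_of_nonneg_right h9 (Real.sqrt_nonneg ((2 : ℝ) ^ m))
  linarith

end RMG
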