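import Mathlib

/-! # The two sided bound on the logarithmic scale, from the explicit lower bound and the sphere
covering bound (real analysis only) -/

set_option autoImplicit false

open Filter Asymptotics

namespace RMG

/-- the main comparison: `64 (1 + log2 q) <= eta q^eta` for large `q` -/
lemma exists_threshold (η : ℝ) (hη : 0 < η) :
    ∃ Q : ℝ, 1 ≤ Q ∧ ∀ q : ℝ, Q ≤ q → 64 * (1 + Real.logb 2 q) ≤ η * q ^ η := by
  have h1 : (fun x : ℝ => Real.log x) =o[atTop] fun x => x ^ η := isLittleO_log_rpow_atTop hη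
  have h2 : (fun _ : ℝ => (1 : ℝ)) =o[atTop] fun x => x ^ η := by
    have ht : Tendsto (fun x : ℝ => x ^ η) atTop atTop := tendsto_rpow_atTop hη
    exact isLittleO_const_left.2 (Or.inr (tendsto_norm_atTop_atTop.comp ht))
  have hl2 : 0 < Real.log 2 := Real.log_pos (by norm_num)
  have e1 := h1.def (c := η * Real.log 2 / 128) (by positivity)
  have e2 := h2.def (c := η / 128) (by positivity)
  obtain ⟨Q, hQ⟩ := eventually_atTop.1 (e1.and e2)
  refine ⟨max Q 1, le_max_right _ _, fun q hq => ?_⟩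
  have hq1 : 1 ≤ q := (le_max_right _ _).trans hq
  obtain ⟨a, b⟩ := hQ q ((le_max_left _ _).trans hq)
  have hp : 0 ≤ q ^ η := Real.rpow_nonneg (by linarith) _
  rw [Real.norm_of_nonneg (Real.log_nonneg hq1), Real.norm_of_nonneg hp] at a
  rw [norm_one, Real.norm_of_nonneg hp] at b
  have hlogb : Real.logb 2 q ≤ η / 128 * q ^ η := by
    rw [Real.logb, div_le_iff₀ hl2]
    calc Real.log q ≤ η * Real.log 2 / 128 * q ^ η := a
      _ = η / 128 * q ^ η * Real.log 2 := by ring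
  nlinarith

theorem two_sided_of (ρ : ℕ → ℕ → ℝ)
    (hex : ∀ t g m : ℕ, 1 ≤ t → 1 ≤ g → g ≤ t → 2 * t ≤ m →
      36 * (64 * (t : ℝ) ^ 2 * Real.logb 2 (m / t)) ≤ g * m →
      ρ (t + g + 1) m ≤ 2 ^ m / 2 - 1 / 7 *
        ((g : ℝ) * m / (64 * t ^ 2 * Real.logb 2 (m / t))) ^ ((t : ℝ) / 2) * Real.sqrt (2 ^ m))
    (hsp : ∀ r m : ℕ, 1 ≤ r → r ≤ m →
      (2 : ℝ) ^ m / 2 - ρ r m ≤ Real.sqrt ((Real.exp 1 * m / r) ^ r) * Real.sqrt (2 ^ m))
    (ε : ℝ) (hε : 0 < ε) : ∃ C : ℕ, ∀ r m : ℕ, C ≤ r → C * r ≤ m →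
    ((m : ℝ) / r) ^ ((1 / 2 - ε) * r) * Real.sqrt (2 ^ m) ≤ 2 ^ m / 2 - ρ r m ∧
    (2 : ℝ) ^ m / 2 - ρ r m ≤ ((m : ℝ) / r) ^ ((1 / 2 + ε) * r) * Real.sqrt (2 ^ m) := by
  set e : ℝ := min ε (1 / 4) with he
  have he0 : 0 < e := lt_min hε (by norm_num)
  have he4 : e ≤ 1 / 4 := min_le_right _ _
  have heε : e ≤ ε := min_le_left _ _
  set η : ℝ := e / 2 with hη
  have hη0 : 0 < η := by positivity
  have hη8 : η ≤ 1 / 8 := by rw [hη]; linarith
  obtain ⟨Q, hQ1, hQ⟩ := exists_threshold η hη0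
  obtain ⟨C1, hC1⟩ := exists_nat_ge Q
  obtain ⟨C2, hC2⟩ := exists_nat_ge (4 / e)
  obtain ⟨C3, hC3⟩ := exists_nat_ge (Real.exp (1 / (2 * ε)))
  refine ⟨max (max C1 C2) (max C3 1296), fun r m hr hrm => ?_⟩
  set C := max (max C1 C2) (max C3 1296) with hC
  have hc1 : C1 ≤ C := (le_max_left _ _).trans (le_max_left _ _)
  have hc2 : C2 ≤ C := (le_max_right _ _).trans (le_max_left _ _)
  have hc3 : C3 ≤ C := (le_max_left _ _).trans (le_max_right _ _)
  have hc4 : 1296 ≤ C := (le_max_right _ _).trans (le_max_right _ _)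
  have hrpos : 0 < r := by omega
  have hr0 : (0 : ℝ) < r := by exact_mod_cast hrpos
  have hr1296 : (1296 : ℝ) ≤ r := by exact_mod_cast hc4.trans hr
  have hmr : (C : ℝ) * r ≤ m := by exact_mod_cast hrm
  set q : ℝ := (m : ℝ) / r with hq
  have hqC : (C : ℝ) ≤ q := by rw [hq, le_div_iff₀ hr0]; exact hmr
  have hq1296 : (1296 : ℝ) ≤ q := le_trans (by exact_mod_cast hc4) hqC
  have hq0 : 0 < q := by linarith
  have hq1 : 1 ≤ q := by linarith
  have hS : 0 < Real.sqrt ((2 : ℝ) ^ m) := Real.sqrt_pos.2 (by positivity)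
  have hrm' : r ≤ m := by
    calc r = 1 * r := (one_mul r).symm
      _ ≤ C * r := Nat.mul_le_mul_right _ (by omega)
      _ ≤ m := hrm
  constructor
  · -- lower bound
    set g : ℕ := ⌈η * r⌉₊ with hg
    have hg1 : η * r ≤ g := Nat.le_ceil _
    have hg2 : (g : ℝ) < η * r + 1 := Nat.ceil_lt_add_one (by positivity)
    have hgpos : 1 ≤ g := by
      have : (0 : ℝ) < g := lt_of_lt_of_le (by positivity) hg1
      exact_mod_cast this
    have hgr : (g : ℝ) ≤ r / 8 + 1 := by nlinarith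
    have hgr' : 8 * g ≤ r + 8 := by
      have : 8 * (g : ℝ) ≤ r + 8 := by linarith
      exact_mod_cast this
    have hr1296' : 1296 ≤ r := hc4.trans hr
    obtain ⟨t, ht⟩ : ∃ t, r = t + g + 1 := ⟨r - g - 1, by omega⟩
    have ht1 : 1 ≤ t := by omega
    have hgt : g ≤ t := by omega
    have htr : t ≤ r := by omega
    have h2t : r ≤ 2 * t := by omega
    have htR : (r : ℝ) = t + g + 1 := by exact_mod_cast ht
    have ht0 : (0 : ℝ) < t := by exact_mod_cast ht1
    have htm : 2 * t ≤ m := by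
      have : 1296 * r ≤ m := le_trans (Nat.mul_le_mul_right _ hc4) hrm
      omega
    have hm0 : (0 : ℝ) < m := by
      have : 0 < m := by omega
      exact_mod_cast this
    -- L
    set L : ℝ := Real.logb 2 (m / t) with hL
    have hmt2 : (2 : ℝ) ≤ m / t := by
      rw [le_div_iff₀ ht0]; exact_mod_cast htm
    have hL1 : 1 ≤ L := by
      rw [hL, Real.le_logb_iff_rpow_le (by norm_num) (by positivity)]
      simpa using hmt2
    have hL2 : L ≤ 1 + Real.logb 2 q := by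
      have h1 : (m : ℝ) / t ≤ 2 * q := by
        rw [hq, div_le_iff₀ ht0]
        have h2 : (r : ℝ) ≤ 2 * t := by exact_mod_cast h2t
        have h3 : 2 * ((m : ℝ) / r) * t = m * (2 * t / r) := by field_simp
        rw [h3]
        have h4 : 1 ≤ 2 * (t : ℝ) / r := by rw [le_div_iff₀ hr0]; linarith
        nlinarith
      have h5 : Real.logb 2 (2 * q) = 1 + Real.logb 2 q := by
        rw [Real.logb_mul (by norm_num) hq0.ne', Real.logb_self_eq_one (by norm_num)]
      rw [← h5, hL]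
      exact Real.logb_le_logb_of_le (by norm_num) (by positivity) h1
    set Y : ℝ := (g : ℝ) * m / (64 * t ^ 2 * L) with hY
    have hden : 0 < 64 * (t : ℝ) ^ 2 * L := by positivity
    -- Y >= q^(1-eta)
    have hYq : q ^ (1 - η) ≤ Y := by
      rw [hY, le_div_iff₀ hden]
      have k1 : 64 * L ≤ η * q ^ η := le_trans (by linarith) (hQ q (hC1.trans
        (le_trans (by exact_mod_cast hc1) hqC)))
      have k2 : q ^ (1 - η) * q ^ η = q := by
        rw [← Real.rpow_add hq0]; simp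
      have k3 : 0 ≤ q ^ (1 - η) := Real.rpow_nonneg hq0.le _
      have k4 : (t : ℝ) ^ 2 ≤ r ^ 2 := by
        have : (t : ℝ) ≤ r := by exact_mod_cast htr
        exact pow_le_pow_left₀ ht0.le this 2
      calc q ^ (1 - η) * (64 * (t : ℝ) ^ 2 * L) = q ^ (1 - η) * (64 * L) * t ^ 2 := by ring
        _ ≤ q ^ (1 - η) * (η * q ^ η) * t ^ 2 := by
            gcongr
        _ = η * q * t ^ 2 := by rw [← mul_assoc, mul_comm (q ^ (1 - η)) η, mul_assoc η, k2]
        _ ≤ η * q * r ^ 2 := by gcongr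
        _ = (η * r) * m := by rw [hq]; field_simp
        _ ≤ g * m := by gcongr
    have hq36 : (36 : ℝ) ≤ q ^ (1 - η) := by
      have h1 : (36 : ℝ) = (1296 : ℝ) ^ ((1 : ℝ) / 2) := by
        rw [← Real.sqrt_eq_rpow]
        rw [show (1296 : ℝ) = 36 ^ 2 by norm_num, Real.sqrt_sq (by norm_num)]
      calc (36 : ℝ) = (1296 : ℝ) ^ ((1 : ℝ) / 2) := h1
        _ ≤ q ^ ((1 : ℝ) / 2) := Real.rpow_le_rpow (by norm_num) hq1296 (by norm_num)
        _ ≤ q ^ (1 - η) := Real.rpow_le_rpow_of_exponent_le hq1 (by linarith)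
    have hY36 : 36 * (64 * (t : ℝ) ^ 2 * L) ≤ g * m := by
      have : 36 ≤ Y := hq36.trans hYq
      rw [hY, le_div_iff₀ hden] at this
      exact this
    have hfin := hex t g m ht1 hgpos hgt htm hY36
    rw [← ht] at hfin
    have hpow : q ^ ((1 / 2 - ε) * r) ≤ 1 / 7 * Y ^ ((t : ℝ) / 2) := by
      have s1 : (q ^ (1 - η)) ^ ((t : ℝ) / 2) ≤ Y ^ ((t : ℝ) / 2) :=
        Real.rpow_le_rpow (Real.rpow_nonneg hq0.le _) hYq (by positivity)
      have s2 : (q ^ (1 - η)) ^ ((t : ℝ) / 2) = q ^ ((1 - η) * ((t : ℝ) / 2)) :=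
        (Real.rpow_mul hq0.le _ _).symm
      have s3 : (1 / 2 - ε) * r + 1 ≤ (1 - η) * ((t : ℝ) / 2) := by
        have hr4 : 4 / e ≤ r := hC2.trans (by exact_mod_cast hc2.trans hr)
        have hr4' : 4 ≤ e * r := by
          rw [div_le_iff₀ he0] at hr4; linarith
        have ht' : (1 - η) * r - 2 ≤ t := by nlinarith
        have u1 : (1 - η) * (((1 - η) * r - 2) / 2) ≤ (1 - η) * ((t : ℝ) / 2) := by
          apply mul_le_mul_of_nonneg_left _ (by linarith)
          linarith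
        have u2 : (1 / 2 - ε) * r ≤ (1 / 2 - e) * r := by
          apply mul_le_mul_of_nonneg_right _ hr0.le
          linarith
        have u3 : (1 / 2 - e) * r + 1 ≤ (1 - η) * (((1 - η) * r - 2) / 2) := by
          have : e = 2 * η := by rw [hη]; ring
          rw [this] at hr4' ⊢
          nlinarith [mul_nonneg hη0.le hη0.le, mul_nonneg (mul_nonneg hη0.le hη0.le) hr0.le]
        linarith
      have s4 : q ^ ((1 / 2 - ε) * r) * q ≤ q ^ ((1 - η) * ((t : ℝ) / 2)) := by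
        calc q ^ ((1 / 2 - ε) * r) * q = q ^ ((1 / 2 - ε) * r + 1) := by
              rw [Real.rpow_add hq0, Real.rpow_one]
          _ ≤ _ := Real.rpow_le_rpow_of_exponent_le hq1 s3
      have s5 : 0 ≤ q ^ ((1 / 2 - ε) * r) := Real.rpow_nonneg hq0.le _
      have s6 : 7 * q ^ ((1 / 2 - ε) * r) ≤ q ^ ((1 / 2 - ε) * r) * q := by nlinarith
      rw [s2] at s1
      linarith
    have : q ^ ((1 / 2 - ε) * r) * Real.sqrt (2 ^ m)
        ≤ 1 / 7 * Y ^ ((t : ℝ) / 2) * Real.sqrt (2 ^ m) :=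
      mul_le_mul_of_nonneg_right hpow hS.le
    linarith
  · -- upper bound
    refine (hsp r m hrpos hrm').trans ?_
    apply mul_le_mul_of_nonneg_right _ hS.le
    have h1 : Real.exp 1 * m / r = Real.exp 1 * q := by rw [hq]; ring
    rw [h1, Real.sqrt_eq_rpow, ← Real.rpow_natCast, ← Real.rpow_mul (by positivity),
      Real.mul_rpow (Real.exp_pos 1).le hq0.le]
    have h2 : Real.exp 1 ≤ q ^ (2 * ε) := by
      have h3 : Real.exp (1 / (2 * ε)) ≤ q := hC3.trans (le_trans (by exact_mod_cast hc3) hqC)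
      calc Real.exp 1 = (Real.exp (1 / (2 * ε))) ^ (2 * ε) := by
            rw [← Real.exp_mul]; congr 1; field_simp
        _ ≤ q ^ (2 * ε) := Real.rpow_le_rpow (Real.exp_pos _).le h3 (by positivity)
    have h4 : (Real.exp 1) ^ ((r : ℝ) * (1 / 2)) ≤ q ^ (ε * r) := by
      calc (Real.exp 1) ^ ((r : ℝ) * (1 / 2)) ≤ (q ^ (2 * ε)) ^ ((r : ℝ) * (1 / 2)) :=
            Real.rpow_le_rpow (Real.exp_pos 1).le h2 (by positivity)
        _ = q ^ (ε * r) := by rw [← Real.rpow_mul hq0.le]; congr 1; ring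
    calc (Real.exp 1) ^ ((r : ℝ) * (1 / 2)) * q ^ ((r : ℝ) * (1 / 2))
        ≤ q ^ (ε * r) * q ^ ((r : ℝ) * (1 / 2)) := by gcongr
      _ = q ^ ((1 / 2 + ε) * r) := by rw [← Real.rpow_add hq0]; congr 1; ring

end RMG
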