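import Mathlib
import Pool.Agent.Helper71.RMC.Rec

/-! # The sphere covering bound for `RM(r,m)` -/

set_option autoImplicit false

open scoped BigOperators
open Finset

namespace GRM39

variable {m : ℕ}

/-- the function of the coefficient vector `c` -/
def gfun (m r : ℕ) (c : {A : Finset (Fin m) // A.card ≤ r} → ZMod 2) (x : Fin m → ZMod 2) : ZMod 2 :=
  ∑ A, c A * ∏ i ∈ A.1, x i

lemma pow_zmod2 (a : ZMod 2) {k : ℕ} (hk : k ≠ 0) : a ^ k = a := by
  obtain ⟨k, rfl⟩ := Nat.exists_eq_succ_of_ne_zero hk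
  have h : a = 0 ∨ a = 1 := by revert a; decide
  rcases h with rfl | rfl <;> simp

lemma eval_eq_gfun (r : ℕ) (p : MvPolynomial (Fin m) (ZMod 2)) (hp : p.totalDegree ≤ r) :
    ∃ c, ∀ x, MvPolynomial.eval x p = gfun m r c x := by
  classical
  refine ⟨fun A => ∑ d ∈ p.support.filter (fun d => d.support = A.1), p.coeff d, fun x => ?_⟩
  have hcard : ∀ d ∈ p.support, d.support.card ≤ r := by
    intro d hd
    have h1 : d.support.card ≤ d.sum (fun _ e => e) := by
      rw [Finsupp.sum, Finset.card_eq_sum_ones]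
      exact Finset.sum_le_sum fun i hi => Nat.one_le_iff_ne_zero.mpr (Finsupp.mem_support_iff.mp hi)
    exact h1.trans ((MvPolynomial.le_totalDegree hd).trans hp)
  rw [MvPolynomial.eval_eq, gfun]
  have h2 : ∀ A : {A : Finset (Fin m) // A.card ≤ r},
      (∑ d ∈ p.support.filter (fun d => d.support = A.1), p.coeff d) * ∏ i ∈ A.1, x i
        = ∑ d ∈ p.support, if d.support = A.1 then p.coeff d * ∏ i ∈ d.support, x i else 0 := by
    intro A
    rw [Finset.sum_mul, Finset.sum_filter]
    refine Finset.sum_congr rfl fun d _ => ?_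
    split_ifs with h
    · rw [h]
    · rfl
  simp_rw [h2]
  rw [Finset.sum_comm]
  refine Finset.sum_congr rfl fun d hd => ?_
  rw [Finset.sum_eq_single (⟨d.support, hcard d hd⟩ : {A : Finset (Fin m) // A.card ≤ r})]
  · rw [if_pos rfl]
    congr 1
    exact Finset.prod_congr rfl fun i hi => pow_zmod2 _ (Finsupp.mem_support_iff.mp hi)
  · intro A _ hA
    rw [if_neg]
    intro h
    exact hA (Subtype.ext h.symm)
  · intro h
    exact absurd (Finset.mem_univ _) h

/-- the number of subsets of size at most `r` -/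
lemma card_small (m r : ℕ) :
    Fintype.card {A : Finset (Fin m) // A.card ≤ r} = ∑ i ∈ Finset.range (r + 1), m.choose i := by
  classical
  rw [Fintype.card_subtype]
  have : (Finset.univ.filter (fun A : Finset (Fin m) => A.card ≤ r))
      = (Finset.range (r + 1)).biUnion (fun i => Finset.powersetCard i Finset.univ) := by
    ext A
    simp [Finset.mem_powersetCard]
  rw [this, Finset.card_biUnion]
  · simp
  · intro i _ j _ hij
    rw [Function.onFun, Finset.disjoint_left]
    intro A hA hB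
    rw [Finset.mem_powersetCard] at hA hB
    exact hij (hA.2.symm.trans hB.2)

lemma sum_choose_le (m r : ℕ) (hr : 1 ≤ r) (hrm : r ≤ m) :
    ((∑ i ∈ Finset.range (r + 1), m.choose i : ℕ) : ℝ) ≤ (Real.exp 1 * m / r) ^ r := by
  have hm : (0 : ℝ) < m := by exact_mod_cast (by omega : 0 < m)
  have hr' : (0 : ℝ) < r := by exact_mod_cast (by omega : 0 < r)
  set y : ℝ := (r : ℝ) / m with hy
  have hy0 : 0 < y := by positivity
  have hy1 : y ≤ 1 := by
    rw [hy, div_le_one hm]
    exact_mod_cast hrm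
  have h1 : y ^ r * ((∑ i ∈ Finset.range (r + 1), m.choose i : ℕ) : ℝ) ≤ (1 + y) ^ m := by
    push_cast
    rw [Finset.mul_sum, add_comm 1 y, add_pow]
    calc ∑ i ∈ Finset.range (r + 1), y ^ r * (m.choose i : ℝ)
        ≤ ∑ i ∈ Finset.range (r + 1), y ^ i * 1 ^ (m - i) * (m.choose i : ℝ) := by
          refine Finset.sum_le_sum fun i hi => ?_
          rw [one_pow, mul_one]
          have hi' : i ≤ r := Nat.lt_succ_iff.mp (Finset.mem_range.mp hi)
          exact mul_le_mul_of_nonneg_right (pow_le_pow_of_le_one hy0.le hy1 hi') (Nat.cast_nonneg _)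
      _ ≤ ∑ i ∈ Finset.range (m + 1), y ^ i * 1 ^ (m - i) * (m.choose i : ℝ) := by
          refine Finset.sum_le_sum_of_subset_of_nonneg ?_ fun i _ _ => by positivity
          intro i hi
          rw [Finset.mem_range] at hi ⊢
          omega
  have h2 : (1 + y) ^ m ≤ Real.exp 1 ^ r := by
    have h3 : 1 + y ≤ Real.exp y := by
      have := Real.add_one_le_exp y
      linarith
    calc (1 + y) ^ m ≤ Real.exp y ^ m := pow_le_pow_left₀ (by positivity) h3 m
      _ = Real.exp (m * y) := by rw [← Real.exp_nat_mul]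
      _ = Real.exp 1 ^ r := by
          rw [← Real.exp_nat_mul, hy]
          congr 1
          field_simp
  have h4 : (Real.exp 1 * m / r) ^ r = Real.exp 1 ^ r / y ^ r := by
    rw [← div_pow, hy]
    congr 1
    field_simp
  rw [h4, le_div_iff₀ (by positivity), mul_comm]
  exact h1.trans h2

noncomputable def sgn (a : ZMod 2) : ℝ := if a = 0 then 1 else -1

lemma sum_sgn (l : ℝ) (b : ZMod 2) :
    ∑ a : ZMod 2, Real.exp (l * sgn (a - b)) = 2 * Real.cosh l := by
  have h : ∑ a : ZMod 2, Real.exp (l * sgn (a - b)) = ∑ a : ZMod 2, Real.exp (l * sgn a) := by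
    exact Fintype.sum_equiv (Equiv.subRight b) _ _ (fun a => rfl)
  rw [h, Real.cosh_eq]
  have h2 : (Finset.univ : Finset (ZMod 2)) = {0, 1} := by decide
  rw [h2, Finset.sum_pair (by decide)]
  simp only [sgn, if_true, mul_one, mul_neg, one_ne_zero, if_false]
  ring

lemma sum_fun (X : Type) [Fintype X] [DecidableEq X] (l : ℝ) (g : X → ZMod 2) :
    ∑ f : X → ZMod 2, Real.exp (l * ∑ x, sgn (f x - g x)) = (2 * Real.cosh l) ^ Fintype.card X := by
  have h : ∀ f : X → ZMod 2, Real.exp (l * ∑ x, sgn (f x - g x)) = ∏ x, Real.exp (l * sgn (f x - g x)) := by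
    intro f
    rw [Finset.mul_sum, Real.exp_sum]
  simp_rw [h]
  have h2 := Finset.prod_univ_sum (fun _ : X => (Finset.univ : Finset (ZMod 2)))
    (fun x a => Real.exp (l * sgn (a - g x)))
  rw [Fintype.piFinset_univ] at h2
  rw [← h2]
  simp_rw [sum_sgn]
  rw [Finset.prod_const, Finset.card_univ]

lemma sum_sgn_dist (X : Type) [Fintype X] [DecidableEq X] (f g : X → ZMod 2) :
    ∑ x, sgn (f x - g x) = (Fintype.card X : ℝ) - 2 * ((Finset.univ.filter (fun x => f x ≠ g x)).card : ℝ) := by
  have h : ∀ x, sgn (f x - g x) = 1 - 2 * (if f x ≠ g x then (1 : ℝ) else 0) := by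
    intro x
    unfold sgn
    by_cases hx : f x = g x
    · rw [if_pos (by rw [hx, sub_self]), if_neg (by simpa using hx)]
      norm_num
    · rw [if_neg (fun h => hx (sub_eq_zero.mp h)), if_pos hx]
      norm_num
  simp_rw [h]
  rw [Finset.sum_sub_distrib, ← Finset.mul_sum, Finset.sum_boole]
  simp

/-- a code with `card K` words of covering radius at most `ρ` -/
theorem covering (X K : Type) [Fintype X] [DecidableEq X] [Fintype K] [Nonempty X]
    (w : K → X → ZMod 2) (ρ V : ℕ)
    (hK : Fintype.card K ≤ 2 ^ V)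
    (h : ∀ f : X → ZMod 2, ∃ k, (Finset.univ.filter (fun x => f x ≠ w k x)).card ≤ ρ) :
    (Fintype.card X : ℝ) / 2 - ρ ≤ Real.sqrt V * Real.sqrt (Fintype.card X) := by
  set n : ℝ := (Fintype.card X : ℝ) with hn
  have hn0 : 0 < n := by
    rw [hn]
    exact_mod_cast Fintype.card_pos
  by_cases ht : n / 2 - ρ ≤ 0
  · exact ht.trans (by positivity)
  push Not at ht
  set t : ℝ := n / 2 - ρ with htd
  set l : ℝ := 2 * t / n with hl
  have hl0 : 0 < l := by positivity
  have h1 : ∀ f : X → ZMod 2, Real.exp (l * (2 * t)) ≤ ∑ k, Real.exp (l * ∑ x, sgn (f x - w k x)) := by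
    intro f
    obtain ⟨k, hk⟩ := h f
    refine le_trans ?_ (Finset.single_le_sum (f := fun k => Real.exp (l * ∑ x, sgn (f x - w k x)))
      (fun _ _ => (Real.exp_pos _).le) (Finset.mem_univ k))
    apply Real.exp_le_exp.mpr
    apply mul_le_mul_of_nonneg_left _ hl0.le
    rw [sum_sgn_dist]
    have : ((Finset.univ.filter (fun x => f x ≠ w k x)).card : ℝ) ≤ ρ := by exact_mod_cast hk
    rw [htd]
    linarith
  have h2 : (2 : ℝ) ^ Fintype.card X * Real.exp (l * (2 * t))
      ≤ (2 : ℝ) ^ V * (2 * Real.cosh l) ^ Fintype.card X := by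
    have h3 : ∑ _f : X → ZMod 2, Real.exp (l * (2 * t))
        ≤ ∑ f : X → ZMod 2, ∑ k, Real.exp (l * ∑ x, sgn (f x - w k x)) :=
      Finset.sum_le_sum fun f _ => h1 f
    rw [Finset.sum_comm] at h3
    simp_rw [sum_fun] at h3
    rw [Finset.sum_const, Finset.sum_const, Finset.card_univ, Finset.card_univ, nsmul_eq_mul,
      nsmul_eq_mul, Fintype.card_fun, ZMod.card] at h3
    push_cast at h3
    refine h3.trans ?_
    apply mul_le_mul_of_nonneg_right _ (by positivity)
    exact_mod_cast hK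
  have h4 : (2 * Real.cosh l) ^ Fintype.card X ≤ 2 ^ Fintype.card X * Real.exp (n * (l ^ 2 / 2)) := by
    rw [mul_pow, hn, Real.exp_nat_mul]
    apply mul_le_mul_of_nonneg_left _ (by positivity)
    exact pow_le_pow_left₀ (Real.cosh_pos l).le (Real.cosh_le_exp_half_sq l) _
  have h5 : Real.exp (l * (2 * t)) ≤ Real.exp (V + n * (l ^ 2 / 2)) := by
    have h6 : (2 : ℝ) ^ Fintype.card X * Real.exp (l * (2 * t))
        ≤ 2 ^ Fintype.card X * (2 ^ V * Real.exp (n * (l ^ 2 / 2))) := by
      calc _ ≤ _ := h2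
        _ ≤ 2 ^ V * (2 ^ Fintype.card X * Real.exp (n * (l ^ 2 / 2))) := by
            apply mul_le_mul_of_nonneg_left h4 (by positivity)
        _ = _ := by ring
    have h7 := le_of_mul_le_mul_left h6 (by positivity)
    refine h7.trans ?_
    rw [Real.exp_add]
    apply mul_le_mul_of_nonneg_right _ (Real.exp_pos _).le
    have h8 : (2 : ℝ) ≤ Real.exp 1 := by
      have := Real.add_one_le_exp 1
      linarith
    calc (2 : ℝ) ^ V ≤ Real.exp 1 ^ V := pow_le_pow_left₀ (by norm_num) h8 V
      _ = Real.exp V := by rw [← Real.exp_nat_mul, mul_one]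
  have h9 : l * (2 * t) ≤ V + n * (l ^ 2 / 2) := Real.exp_le_exp.mp h5
  have h10 : t ^ 2 ≤ V * n := by
    have e1 : l * (2 * t) = 4 * t ^ 2 / n := by rw [hl]; ring
    have e2 : n * (l ^ 2 / 2) = 2 * t ^ 2 / n := by
      rw [hl]
      field_simp
    rw [e1, e2] at h9
    have h11 : 2 * t ^ 2 / n ≤ V := by
      have : 4 * t ^ 2 / n - 2 * t ^ 2 / n = 2 * t ^ 2 / n := by ring
      linarith
    rw [div_le_iff₀ hn0] at h11
    nlinarith [sq_nonneg t]
  rw [← Real.sqrt_mul (Nat.cast_nonneg V)]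
  exact Real.le_sqrt_of_sq_le h10

/-- **Sphere covering bound**, in the explicit form. -/
theorem sphere (r m : ℕ) (hr : 1 ≤ r) (hrm : r ≤ m) :
    (2 : ℝ) ^ m / 2 - RMC71.covRadius r m
      ≤ Real.sqrt ((Real.exp 1 * m / r) ^ r) * Real.sqrt (2 ^ m) := by
  classical
  have key := covering (Fin m → ZMod 2) ({A : Finset (Fin m) // A.card ≤ r} → ZMod 2)
    (gfun m r) (RMC71.covRadius r m) (∑ i ∈ Finset.range (r + 1), m.choose i)
    (by rw [Fintype.card_fun, ZMod.card, card_small]) (by
      intro f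
      obtain ⟨p, hp, hd⟩ := RMC71.exists_rmDist r m f
      obtain ⟨c, hc⟩ := eval_eq_gfun r p hp
      refine ⟨c, ?_⟩
      have h1 : (Finset.univ.filter (fun x => f x ≠ gfun m r c x)).card = RMC71.rmDist r m f := by
        simp_rw [← hc]
        exact hd.symm
      rw [h1]
      exact RMC71.rmDist_le_covRadius r m f)
  have hc : (Fintype.card (Fin m → ZMod 2) : ℝ) = 2 ^ m := by
    rw [Fintype.card_fun, ZMod.card, Fintype.card_fin]
    push_cast
    rfl
  rw [hc] at key
  refine key.trans ?_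
  apply mul_le_mul_of_nonneg_right _ (Real.sqrt_nonneg _)
  exact Real.sqrt_le_sqrt (sum_choose_le m r hr hrm)

end GRM39
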