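import Pool.Agent.GRM.Explicit
import Pool.Agent.GRM.Sphere39
import Pool.Agent.GRM.LimitOf

/-! # The deficiency of the covering radius of `RM(r,m)` on the logarithmic scale, for every
growing order `r = o(m)` -/

set_option autoImplicit false

namespace RMG

/-- For every growing order `r = o(m)` the deficiency `2 ^ (m - 1) - covRadius r m` is
`(m / r) ^ ((1 / 2 + o(1)) r) * 2 ^ (m / 2)`. -/
theorem two_sided (ε : ℝ) (hε : 0 < ε) : ∃ C : ℕ, ∀ r m : ℕ, C ≤ r → C * r ≤ m →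
    ((m : ℝ) / r) ^ ((1 / 2 - ε) * r) * Real.sqrt (2 ^ m) ≤ 2 ^ m / 2 - RMC71.covRadius r m ∧
    (2 : ℝ) ^ m / 2 - RMC71.covRadius r m
      ≤ ((m : ℝ) / r) ^ ((1 / 2 + ε) * r) * Real.sqrt (2 ^ m) :=
  two_sided_of (fun r m => (RMC71.covRadius r m : ℝ))
    (fun t g m h1 h2 h3 h4 h5 => explicit t g m h1 h2 h3 h4 h5)
    (fun r m h1 h2 => GRM39.sphere r m h1 h2) ε hε

end RMG
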