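import Pool.Agent.GRM.Limit

/-! # The limit form of the two sided bound -/

set_option autoImplicit false

open Filter Topology

namespace RMG

/-- If `r → ∞` and `m / r → ∞` along a filter, then
`log ((2 ^ (m - 1) - covRadius r m) / 2 ^ (m / 2)) / (r log (m / r)) → 1 / 2`. -/
theorem tendsto_two_sided {ι : Type} (l : Filter ι) (r m : ι → ℕ) (hr : Tendsto r l atTop)
    (hm : Tendsto (fun k => (m k : ℝ) / r k) l atTop) :
    Tendsto (fun k => Real.log (((2 : ℝ) ^ m k / 2 - RMC71.covRadius (r k) (m k))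
      / Real.sqrt (2 ^ m k)) / (r k * Real.log (m k / r k))) l (𝓝 (1 / 2)) := by
  rw [Metric.tendsto_nhds]
  intro ε hε
  obtain ⟨C, hC⟩ := two_sided (ε / 2) (by positivity)
  filter_upwards [hr.eventually_ge_atTop (max C 1), hm.eventually_ge_atTop ((C : ℝ) + 2)]
    with k hk1 hk2
  have hrC : C ≤ r k := (le_max_left _ _).trans hk1
  have hr1 : 1 ≤ r k := (le_max_right _ _).trans hk1
  have hr0 : (0 : ℝ) < r k := by exact_mod_cast hr1
  have hC0 : (0 : ℝ) ≤ C := Nat.cast_nonneg C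
  have hmr : C * r k ≤ m k := by
    have h1 : (C : ℝ) ≤ (m k : ℝ) / r k := by linarith
    rw [le_div_iff₀ hr0] at h1
    exact_mod_cast h1
  obtain ⟨hlo, hup⟩ := hC (r k) (m k) hrC hmr
  set q : ℝ := (m k : ℝ) / r k with hq
  have hq2 : 2 ≤ q := by linarith
  have hq0 : 0 < q := by linarith
  have hS : 0 < Real.sqrt ((2 : ℝ) ^ m k) := Real.sqrt_pos.2 (by positivity)
  have hlog : 0 < Real.log q := Real.log_pos (by linarith)
  have hden : 0 < (r k : ℝ) * Real.log q := by positivity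
  set D : ℝ := ((2 : ℝ) ^ m k / 2 - RMC71.covRadius (r k) (m k)) / Real.sqrt (2 ^ m k) with hD
  have hlo' : q ^ ((1 / 2 - ε / 2) * (r k : ℝ)) ≤ D := by
    rw [hD, le_div_iff₀ hS]; exact hlo
  have hup' : D ≤ q ^ ((1 / 2 + ε / 2) * (r k : ℝ)) := by
    rw [hD, div_le_iff₀ hS]; exact hup
  have hD0 : 0 < D := lt_of_lt_of_le (Real.rpow_pos_of_pos hq0 _) hlo'
  have h1 : (1 / 2 - ε / 2) * (r k * Real.log q) ≤ Real.log D := by
    have := Real.log_le_log (Real.rpow_pos_of_pos hq0 _) hlo'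
    rw [Real.log_rpow hq0] at this
    linarith
  have h2 : Real.log D ≤ (1 / 2 + ε / 2) * (r k * Real.log q) := by
    have := Real.log_le_log hD0 hup'
    rw [Real.log_rpow hq0] at this
    linarith
  rw [Real.dist_eq, abs_lt]
  constructor
  · have : 1 / 2 - ε / 2 ≤ Real.log D / (r k * Real.log q) := by
      rw [le_div_iff₀ hden]; exact h1
    linarith
  · have : Real.log D / (r k * Real.log q) ≤ 1 / 2 + ε / 2 := by
      rw [div_le_iff₀ hden]; exact h2
    linarith

end RMG
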